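import Pool.Agent.P.MP_97162c_an.Bergman

/-! Disjoint pseudoconvex domains in complex 2-space with one-dimensional Bergman space. -/

namespace Pool.Agent.P.MP_97162c_an.K

open Set Filter Topology Metric Complex MeasureTheory
open scoped Real ENNReal

/-- A domain with an exhaustion `φ` whose Bergman space is spanned by `f0`. -/
structure One (U : Set (ℂ × ℂ)) (φ : ℂ × ℂ → ℝ) : Prop where
  op : IsOpen U
  ne : U.Nonempty
  sub : U ⊆ Om
  gd : ∀ p ∈ U, Good φ p ∧ 0 ≤ φ p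
  cpt : ∀ c, IsCompact {p | p ∈ U ∧ φ p ≤ c}
  sp : ∀ f : ℂ × ℂ → ℂ, DifferentiableOn ℂ f U → ∫⁻ p in U, ‖f p‖ₑ ^ 2 ≠ ∞ →
    ∃ a : ℂ, ∀ p ∈ U, f p = a * f0 p

/-- The larger of the two absolute values of the fibre coordinate. -/
noncomputable def tau (p : ℂ × ℂ) : ℝ := max ‖V (zz p.1) p.2‖ ‖V (zz p.1) p.2‖⁻¹

/-- The shell between two levels. -/
def Sh (α β : ℝ) : Set (ℂ × ℂ) := {p | p ∈ Om ∧ α < tau p ∧ tau p < β}

/-- Its exhaustion. -/
noncomputable def psi (α β : ℝ) (p : ℂ × ℂ) : ℝ :=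
  phi p + (1 / (4 - (2 / β * tau p) ^ 2) + 1 / (4 - (2 * α * (tau p)⁻¹) ^ 2))

variable {α β : ℝ}

theorem tau_eq {z : ℂ} (hz : z ∉ S) (w : ℂ) : tau (P z, w) = max ‖V z w‖ ‖V z w‖⁻¹ := by
  obtain ⟨h1, h2⟩ := zz_spec hz
  rcases (V_inv hz (not_lat h1) h2.symm).2 w with h | h
  · rw [tau, h]
  · rw [tau, h, inv_inv, max_comm]

theorem tau_local {p : ℂ × ℂ} (hp : p ∈ Om) : ∃ v : ℂ × ℂ → ℂ, AnalyticAt ℂ v p ∧ 1 ≤ ‖v p‖ ∧
    tau =ᶠ[𝓝 p] fun q => max ‖v q‖ ‖v q‖⁻¹ := by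
  obtain ⟨z, hz, h1, h2, -⟩ := hp
  obtain ⟨ι, a1, a2, a3⟩ := exists_localInv hz
  rw [h1] at a1 a2 a3
  have b1 : AnalyticAt ℂ (fun q : ℂ × ℂ => ι q.1) p := a1.comp analyticAt_fst
  have b4 : AnalyticAt ℂ (fun q : ℂ × ℂ => Y (ι q.1)) p :=
    AnalyticAt.comp_of_eq (g := Y) (Y_analytic (not_lat hz)) b1 a2
  have b5 : AnalyticAt ℂ (fun q : ℂ × ℂ => V (ι q.1) q.2) p :=
    ((AnalyticAt.comp_of_eq (g := s) (s_analytic hz) b1 a2).mul (b4.add analyticAt_snd)).div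
      (b4.sub analyticAt_snd) (by simpa only [a2] using sub_ne_of_V h2)
  have c1 : tau =ᶠ[𝓝 p] fun q => max ‖V (ι q.1) q.2‖ ‖V (ι q.1) q.2‖⁻¹ := by
    filter_upwards [(continuous_fst.tendsto p).eventually a3] with q hq
    rw [← tau_eq hq.2, hq.1]
  have c2 : 0 < ‖V (ι p.1) p.2‖ := by rw [a2]; linarith
  rcases le_total 1 ‖V (ι p.1) p.2‖ with h | h
  · exact ⟨_, b5, h, c1⟩
  · refine ⟨_, b5.inv (norm_pos_iff.1 c2), ?_, c1.mono fun q hq => ?_⟩
    · rw [Pi.inv_apply, norm_inv]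
      exact (one_le_inv₀ c2).2 h
    · simp only [hq, Pi.inv_apply, norm_inv, inv_inv, max_comm]

theorem tau_cont {p : ℂ × ℂ} (hp : p ∈ Om) : ContinuousAt tau p := by
  obtain ⟨v, a, b, c⟩ := tau_local hp
  exact ContinuousAt.congr (a.continuousAt.norm.max (a.continuousAt.norm.inv₀ (by positivity)))
    c.symm

theorem Sh_open : IsOpen (Sh α β) := isOpen_iff_mem_nhds.2 fun _ hp =>
  inter_mem (Om_open.mem_nhds hp.1) ((continuousAt_const.eventually_lt (tau_cont hp.1) hp.2.1).and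
    ((tau_cont hp.1).eventually_lt continuousAt_const hp.2.2))

theorem max_inv {t : ℝ} (h : 1 ≤ t) : max t t⁻¹ = t :=
  max_eq_left ((inv_le_one_of_one_le₀ h).trans h)

theorem good_psi (hα : 1 < α) {p : ℂ × ℂ} (hp : p ∈ Sh α β) : Good (psi α β) p := by
  obtain ⟨v, a, b, c⟩ := tau_local hp.1
  have h0 := c.self_of_nhds
  simp only [max_inv b] at h0
  obtain ⟨h1, h2, h3⟩ := hp
  have hβ : 0 < β := by linarith
  have n1 : ∀ q, ‖((2 / β : ℝ) : ℂ) * v q‖ = 2 / β * ‖v q‖ := fun q => by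
    rw [norm_mul, norm_real, Real.norm_of_nonneg (by positivity)]
  have n2 : ∀ q, ‖((2 * α : ℝ) : ℂ) * (v q)⁻¹‖ = 2 * α * ‖v q‖⁻¹ := fun q => by
    rw [norm_mul, norm_real, Real.norm_of_nonneg (by positivity), norm_inv]
  refine (good_phi h1).add (((good_inv (h := fun q => ((2 / β : ℝ) : ℂ) * v q)
    (analyticAt_const.mul a) ?_).add (good_inv (h := fun q => ((2 * α : ℝ) : ℂ) * (v q)⁻¹)
    (analyticAt_const.mul (a.inv (norm_pos_iff.1 (by positivity)))) ?_)).congr ?_)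
  · rw [n1, div_mul_eq_mul_div, div_lt_iff₀ hβ]
    linarith
  · rw [n2, ← div_eq_mul_inv, div_lt_iff₀ (by positivity)]
    linarith
  · filter_upwards [c, continuousAt_const.eventually_lt a.continuousAt.norm
      (show 1 < ‖v p‖ by linarith)] with q e e'
    rw [n1, n2, e, max_inv e'.le]

theorem phi_nonneg {p : ℂ × ℂ} (hp : p ∈ Om) : 0 ≤ phi p := by
  obtain ⟨z, hz, h1, h2, h3⟩ := hp
  exact (sq_nonneg _).trans (phi_bounds hz h1 h2 h3 le_rfl).1

theorem psi_parts (hα : 1 < α) {p : ℂ × ℂ} (hp : p ∈ Sh α β) :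
    0 < 4 - (2 / β * tau p) ^ 2 ∧ 0 < 4 - (2 * α * (tau p)⁻¹) ^ 2 := by
  obtain ⟨-, h2, h3⟩ := hp
  have h4 : 0 < tau p := by linarith
  have hβ : 0 < β := by linarith
  have h5 : 2 / β * tau p < 2 := by rw [div_mul_eq_mul_div, div_lt_iff₀ hβ]; linarith
  have h6 : 2 * α * (tau p)⁻¹ < 2 := by rw [← div_eq_mul_inv, div_lt_iff₀ h4]; linarith
  have h7 : 0 < 2 / β * tau p := by positivity
  have h8 : 0 < 2 * α * (tau p)⁻¹ := by positivity
  constructor <;> nlinarith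

theorem psi_cpt (hα : 1 < α) (c : ℝ) : IsCompact {p | p ∈ Sh α β ∧ psi α β p ≤ c} := by
  have key : ∀ p, p ∈ Sh α β ∧ psi α β p ≤ c → 0 < c ∧ phi p ≤ c ∧
      1 / c ≤ 4 - (2 / β * tau p) ^ 2 ∧ 1 / c ≤ 4 - (2 * α * (tau p)⁻¹) ^ 2 := by
    rintro p ⟨h1, h2⟩
    obtain ⟨a, b⟩ := psi_parts hα h1
    have := phi_nonneg h1.1
    have := one_div_pos.2 a
    have := one_div_pos.2 b
    rw [psi] at h2
    have hc : 0 < c := by linarith
    exact ⟨hc, by linarith, (one_div_le hc a).2 (by linarith), (one_div_le hc b).2 (by linarith)⟩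
  refine (sublevel_compact c).of_isClosed_subset (IsSeqClosed.isClosed fun x p hx hl => ?_)
    fun p hp => ⟨hp.1.1, (key p hp).2.1⟩
  have h1 : p ∈ Om := ((sublevel_compact c).isClosed.mem_of_tendsto hl
    (Eventually.of_forall fun n => ⟨(hx n).1.1, (key _ (hx n)).2.1⟩)).1
  have h2 := (tau_cont h1).tendsto.comp hl
  have h3 : α ≤ tau p := ge_of_tendsto' h2 fun n => (hx n).1.2.1.le
  have h4 : tau p ≤ β := le_of_tendsto' h2 fun n => (hx n).1.2.2.le
  have h5 : 0 < tau p := by linarith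
  have hc := one_div_pos.2 (key _ (hx 0)).1
  have h6 := ge_of_tendsto' (((h2.const_mul (2 / β)).pow 2).const_sub 4)
    fun n => (key _ (hx n)).2.2.1
  have h7 := ge_of_tendsto' ((((h2.inv₀ h5.ne').const_mul (2 * α)).pow 2).const_sub 4)
    fun n => (key _ (hx n)).2.2.2
  have h8 : p ∈ Sh α β := by
    refine ⟨h1, h3.lt_of_ne fun h => ?_, h4.lt_of_ne fun h => ?_⟩
    · rw [h, mul_assoc, mul_inv_cancel₀ h5.ne'] at h7
      linarith
    · rw [← h, div_mul_cancel₀ _ h5.ne'] at h6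
      linarith
  exact ⟨h8, le_of_tendsto' ((good_psi hα h8).1.tendsto.comp hl) fun n => (hx n).2⟩

/-- The annulus. -/
def An (α β : ℝ) : Set ℂ := {v | α < ‖v‖ ∧ ‖v‖ < β}

/-- The part of the covering space over the shell. -/
def Dq (α β : ℝ) : Set (ℂ × ℂ) := D ∩ univ ×ˢ An α β

theorem An_open : IsOpen (An α β) :=
  (isOpen_lt continuous_const continuous_norm).inter (isOpen_lt continuous_norm continuous_const)

theorem Dq_open : IsOpen (Dq α β) := D_open.inter (isOpen_univ.prod An_open)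

theorem tau_Phi {q : ℂ × ℂ} (hq : q ∈ D) : tau (Phi q) = max ‖q.2‖ ‖q.2‖⁻¹ := by
  rw [Phi, tau_eq hq.1, V_W hq.1 hq.2.2.2]

theorem Phi_mem' (hα : 1 < α) {q : ℂ × ℂ} (hq : q ∈ Dq α β) : Phi q ∈ Sh α β := by
  refine ⟨Phi_mem hq.1, ?_⟩
  rw [tau_Phi hq.1, max_inv (hα.trans hq.2.2.1).le]
  exact hq.2.2

theorem mem_Dq (hα : 1 < α) (hβ : β ≤ 2) {z v : ℂ} (hv : v ∈ An α β) (hz : z ∉ T v) :
    (z, v) ∈ Dq α β := ⟨mem_D (by linarith [hv.1]) (hv.2.trans_le hβ) hz, trivial, hv⟩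

theorem exists_Phi' (hα : 1 < α) (hβ : β ≤ 2) {p : ℂ × ℂ} (hp : p ∈ Sh α β) :
    ∃ q ∈ Dq α β, Phi q = p := by
  have key : ∀ z, z ∉ S → P z = p.1 → 1 ≤ ‖V z p.2‖ → ∃ q ∈ Dq α β, Phi q = p := by
    intro z hz h1 h2
    have h3 := tau_eq hz p.2
    rw [h1, max_inv h2] at h3
    have h4 : V z p.2 ∈ An α β := by rw [An, mem_ofPred_eq, ← h3]; exact hp.2
    obtain ⟨h5, h6⟩ := W_V hz (sub_ne_of_V (w := p.2) (by linarith))
    exact ⟨(z, V z p.2), mem_Dq hα hβ h4 fun h => h.elim hz h5, by simp only [Phi, h1, h6]⟩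
  obtain ⟨z, hz, h1, h2, -⟩ := hp.1
  rcases le_total 1 ‖V z p.2‖ with h | h
  · exact key z hz h1 h
  · refine key (-z) (mt neg_mem_S.1 hz) (by rw [P_neg, h1]) ?_
    rw [V_neg, norm_inv]
    exact (one_le_inv₀ (by linarith)).2 h

section

variable (hα : 1 < α) (hβ : β ≤ 2) {f : ℂ × ℂ → ℂ} (hf : DifferentiableOn ℂ f (Sh α β))
include hα

theorem G_sq_le' (f : ℂ × ℂ → ℂ) (z₀ : ℂ) : ∫⁻ q in Dq α β ∩ ball z₀ (1 / 4) ×ˢ univ,
    ‖G f q‖ₑ ^ 2 ≤ 16 * (4 * ∫⁻ p in Sh α β, ‖f p‖ₑ ^ 2) := by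
  calc _ = ∫⁻ q in Dq α β ∩ ball z₀ (1 / 4) ×ˢ univ, ‖G ((Sh α β).indicator f) q‖ₑ ^ 2 :=
        setLIntegral_congr_fun (Dq_open.inter (isOpen_ball.prod isOpen_univ)).measurableSet
          fun q hq => by simp only [G, indicator_of_mem (Phi_mem' hα hq.1)]
    _ ≤ _ := lintegral_mono_set (inter_subset_inter_left _ inter_subset_left)
    _ ≤ _ := G_sq_le _ z₀
    _ ≤ _ := by
      refine mul_le_mul_right (mul_le_mul_right ?_ _) _
      rw [← lintegral_indicator Sh_open.measurableSet]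
      refine (setLIntegral_le_lintegral _ _).trans (lintegral_mono fun p => ?_)
      by_cases h : p ∈ Sh α β <;> simp [h]

include hf

theorem G_diffAt' {q : ℂ × ℂ} (hq : q ∈ Dq α β) : DifferentiableAt ℂ (G f) q :=
  DifferentiableAt.comp (g := fun p => f p * (cub p.1 - p.2 ^ 2)) q
    ((hf.differentiableAt (Sh_open.mem_nhds (Phi_mem' hα hq))).mul (den_diff _))
    (Phi_analytic hq.1).differentiableAt

include hβ

theorem G_diff_fst' {v : ℂ} (hv : v ∈ An α β) :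
    DifferentiableOn ℂ (fun z => G f (z, v)) (T v)ᶜ := fun z hz =>
  (DifferentiableAt.comp (g := G f) (f := fun z => (z, v)) z
    (G_diffAt' hα hf (mem_Dq hα hβ hv hz)) (by fun_prop)).differentiableWithinAt

theorem G_bound' {v : ℂ} {η : ℝ} (hη : 0 < η) (hv : ball v η ⊆ An α β) {z : ℂ} (hz : z ∉ T v) :
    volume (ball v η) * (volume (ball z (1 / 4)) * ‖G f (z, v)‖ₑ ^ 2) ≤
      16 * (4 * ∫⁻ p in Sh α β, ‖f p‖ₑ ^ 2) := by
  have h1 := hv (mem_ball_self hη)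
  have hm : Measurable ((Dq α β).indicator fun q => ‖G f q‖ₑ ^ 2) :=
    measurable_indicator_sq Dq_open.measurableSet
      fun q hq => (G_diffAt' hα hf hq).continuousAt.continuousWithinAt
  have hTc := countable_of_locfin (T_locfin v)
  calc volume (ball v η) * (volume (ball z (1 / 4)) * ‖G f (z, v)‖ₑ ^ 2)
      ≤ volume (ball v η) * ∫⁻ z' in ball z (1 / 4) \ T v, ‖G f (z', v)‖ₑ ^ 2 :=
        mul_le_mul_right (mv_ball_diff (g := fun z => G f (z, v)) (T_locfin v) hTc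
          ((G_diff_fst' hα hβ hf h1).mono fun w hw => hw.2) hz) _
    _ = ∫⁻ z' in ball z (1 / 4) \ T v, volume (ball v η) * ‖G f (z', v)‖ₑ ^ 2 :=
        (lintegral_const_mul' _ _ measure_ball_lt_top.ne).symm
    _ ≤ ∫⁻ z' in ball z (1 / 4) \ T v, ∫⁻ v',
          (Dq α β).indicator (fun q => ‖G f q‖ₑ ^ 2) (z', v') := by
        refine setLIntegral_mono' (measurableSet_ball.diff hTc.measurableSet) fun z' hz' => ?_
        have h3 := (mem_Dq hα hβ h1 hz'.2).1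
        have h4 : ∀ w ∈ ball v η \ {-s z'}, (z', w) ∈ Dq α β := fun w hw => mem_Dq hα hβ (hv hw.1)
          fun h => h.elim h3.1 fun h => hw.2 (eq_neg_of_add_eq_zero_left h)
        refine (mv_ball_diff (g := fun w => G f (z', w)) (T := {-s z'}) (fun x => ?_)
          (countable_singleton _) (fun w hw => ?_) (fun h => h3.2.2.2 ?_)).trans ?_
        · by_cases hx : x = -s z'
          · rw [← hx]; exact self_mem_nhdsWithin
          · exact mem_nhdsWithin_of_mem_nhds (isOpen_compl_singleton.mem_nhds hx)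
        · exact (DifferentiableAt.comp (g := G f) (f := fun w => (z', w)) w
            (G_diffAt' hα hf (h4 w hw)) (by fun_prop)).differentiableWithinAt
        · rw [mem_singleton_iff] at h
          simp [h]
        · refine le_trans (setLIntegral_mono' (measurableSet_ball.diff (measurableSet_singleton _))
            fun w hw => ?_) (setLIntegral_le_lintegral (ball v η \ {-s z'}) _)
          rw [indicator_of_mem (h4 w hw)]
    _ ≤ ∫⁻ z' in ball z (1 / 4), ∫⁻ v' in univ,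
          (Dq α β).indicator (fun q => ‖G f q‖ₑ ^ 2) (z', v') := by
        simp only [Measure.restrict_univ]
        exact lintegral_mono_set sdiff_subset
    _ = ∫⁻ q in Dq α β ∩ ball z (1 / 4) ×ˢ univ, ‖G f q‖ₑ ^ 2 := by
        rw [← setLIntegral_prod _ hm.aemeasurable, ← Measure.volume_eq_prod, lintegral_indicator
          Dq_open.measurableSet, Measure.restrict_restrict Dq_open.measurableSet]
    _ ≤ _ := G_sq_le' hα f z

theorem G_const_fst' (hfin : ∫⁻ p in Sh α β, ‖f p‖ₑ ^ 2 ≠ ∞) {v : ℂ} (h1 : v ∈ An α β) :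
    ∃ a : ℂ, ∀ z ∉ T v, G f (z, v) = a := by
  obtain ⟨η, hη, hv⟩ := Metric.isOpen_iff.1 An_open v h1
  set C : ℝ≥0∞ := 16 * (4 * ∫⁻ p in Sh α β, ‖f p‖ₑ ^ 2) with hC
  have hC' : C ≠ ∞ := ENNReal.mul_ne_top (by norm_num) (ENNReal.mul_ne_top (by norm_num) hfin)
  set a : ℝ≥0∞ := volume (ball v η) * volume (ball (0 : ℂ) (1 / 4)) with ha
  have ha0 : a ≠ 0 := mul_ne_zero (measure_ball_pos _ _ hη).ne'
    (measure_ball_pos _ _ (by norm_num)).ne'
  have ha1 : a ≠ ∞ := ENNReal.mul_ne_top measure_ball_lt_top.ne measure_ball_lt_top.ne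
  apply liouville_diff (T_locfin v) (G_diff_fst' hα hβ hf h1) (M := (C / a).toReal + 1)
  intro z hz
  have h3 := G_bound' hα hβ hf hη hv hz
  rw [Measure.addHaar_ball_center volume z, ← mul_assoc, ← ha, ← hC, mul_comm,
    ← ENNReal.le_div_iff_mul_le (Or.inl ha0) (Or.inl ha1), ← ofReal_norm,
    ← ENNReal.ofReal_pow (norm_nonneg _),
    ENNReal.ofReal_le_iff_le_toReal (ENNReal.div_ne_top hC' ha0)] at h3
  nlinarith [norm_nonneg (G f (z, v))]

theorem G_const' (hfin : ∫⁻ p in Sh α β, ‖f p‖ₑ ^ 2 ≠ ∞) {v₀ : ℂ} (h0 : v₀ ∈ An α β) :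
    ∃ a : ℂ, ∀ q ∈ Dq α β, G f q = a := by
  choose! c hc using fun v (hv : v ∈ An α β) => G_const_fst' hα hβ hf hfin hv
  have hT : ∀ q ∈ D, q.1 ∉ T q.2 := fun q hq h => h.elim hq.1 hq.2.2.2
  have hcd : DifferentiableOn ℂ c (An α β) := by
    intro v hv
    obtain ⟨z, hz⟩ := (T_locfin v 0).exists
    have hzv := mem_Dq hα hβ hv hz
    have h2 : DifferentiableAt ℂ (fun w => G f (z, w)) v := DifferentiableAt.comp (g := G f)
      (f := fun w => (z, w)) v (G_diffAt' hα hf hzv) (by fun_prop)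
    refine (h2.congr_of_eventuallyEq ?_).differentiableWithinAt
    filter_upwards [(Continuous.tendsto (f := fun w : ℂ => (z, w)) (by fun_prop) v).eventually
      (Dq_open.mem_nhds hzv)] with w hw
    exact (hc w hw.2.2 z (hT (z, w) hw.1)).symm
  have hinv : ∀ v ∈ An α β, c (chi * v) = c v := by
    intro v hv
    obtain ⟨z, hz⟩ := (T_locfin v 0).exists
    rw [← hc v hv z hz, ← G_add_I, hc _ (by
      simpa only [An, mem_ofPred_eq, norm_mul, norm_chi, one_mul] using hv)]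
    rintro (h | h)
    · exact hz (Or.inl (add_I_mem_S.mp h))
    · rw [s_add_I, ← mul_add] at h
      exact hz (Or.inr ((mul_eq_zero.mp h).resolve_left chi_ne_zero))
  have hsph : sphere (0 : ℂ) ‖v₀‖ ⊆ An α β := fun v hv => by
    rw [An, mem_ofPred_eq, mem_sphere_zero_iff_norm.1 hv]; exact h0
  have hpow : ∀ n : ℕ, chi ^ n * v₀ ∈ sphere (0 : ℂ) ‖v₀‖ := fun n => by
    rw [mem_sphere_zero_iff_norm, norm_mul, norm_pow, norm_chi, one_pow, one_mul]
  have hcn : ∀ n : ℕ, c (chi ^ n * v₀) = c v₀ := by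
    intro n
    induction n with
    | zero => rw [pow_zero, one_mul]
    | succ n ih => rw [pow_succ', mul_assoc, hinv _ (hsph (hpow n)), ih]
  obtain ⟨x, hx, hacc⟩ := (infinite_range_of_injective ((mul_left_injective₀ (norm_pos_iff.1
    (show 0 < ‖v₀‖ by linarith [h0.1]))).comp chi_pow_inj)).exists_accPt_of_subset_isCompact
    (isCompact_sphere (0 : ℂ) ‖v₀‖) (range_subset_iff.mpr hpow)
  rw [accPt_iff_frequently_nhdsNE] at hacc
  have hpre : IsPreconnected (An α β) := by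
    have h1 : An α β = (fun p : ℝ × ℝ => (p.1 : ℂ) * cexp (p.2 * I)) '' (Ioo α β ×ˢ univ) := by
      ext v
      refine ⟨fun hv => ⟨(‖v‖, arg v), ⟨hv, trivial⟩, norm_mul_exp_arg_mul_I v⟩, ?_⟩
      rintro ⟨⟨r, θ⟩, ⟨hr, -⟩, rfl⟩
      simp only [An, mem_ofPred_eq, norm_mul, norm_exp_ofReal_mul_I, norm_real, mul_one]
      rw [Real.norm_of_nonneg (by linarith [hr.1])]
      exact hr
    rw [h1]
    exact (isPreconnected_Ioo.prod isPreconnected_univ).image _ (by fun_prop)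
  have h4 : EqOn c (fun _ => c v₀) (An α β) :=
    (hcd.analyticOnNhd An_open).eqOn_of_preconnected_of_frequently_eq analyticOnNhd_const
      hpre (hsph hx) (hacc.mono (by rintro _ ⟨n, rfl⟩; exact hcn n))
  exact ⟨c v₀, fun q hq => (hc q.2 hq.2.2 q.1 (hT q hq.1)).trans (h4 hq.2.2)⟩

end

theorem one_Sh (hα : 1 < α) (h : α < β) (hβ : β ≤ 2) : One (Sh α β) (psi α β) := by
  have h0 : (((α + β) / 2 : ℝ) : ℂ) ∈ An α β := by
    rw [An, mem_ofPred_eq, norm_real, Real.norm_of_nonneg (by linarith)]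
    constructor <;> linarith
  obtain ⟨z, hz⟩ := (T_locfin (((α + β) / 2 : ℝ) : ℂ) 0).exists
  refine ⟨Sh_open, ⟨_, Phi_mem' hα (mem_Dq hα hβ h0 hz)⟩, fun p hp => hp.1,
    fun p hp => ⟨good_psi hα hp, ?_⟩, psi_cpt hα, fun f hf hfin => ?_⟩
  · exact add_nonneg (phi_nonneg hp.1) (add_pos (one_div_pos.2 (psi_parts hα hp).1)
      (one_div_pos.2 (psi_parts hα hp).2)).le
  · obtain ⟨a, ha⟩ := G_const' hα hβ hf hfin h0
    refine ⟨a, fun p hp => ?_⟩
    have h1 := den_ne hp.1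
    obtain ⟨q, hq, rfl⟩ := exists_Phi' hα hβ hp
    rw [← ha q hq, G, f0, mul_inv_cancel_right₀ h1]

theorem exists_two : ∃ U φ U' φ', One U φ ∧ One U' φ' ∧ Disjoint U U' :=
  ⟨_, _, _, _, one_Sh (α := 5 / 4) (β := 3 / 2) (by norm_num) (by norm_num) (by norm_num),
    one_Sh (α := 3 / 2) (β := 2) (by norm_num) (by norm_num) le_rfl,
    disjoint_left.2 fun _ h h' => h.2.2.not_gt h'.2.1⟩

end Pool.Agent.P.MP_97162c_an.K
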