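import Pool.Agent.P.MP_97162c_an.K.Dom

/-! The Bergman space of the domain. -/

namespace Pool.Agent.P.MP_97162c_an.K

open Set Filter Topology Metric Complex MeasureTheory
open scoped Real ENNReal

theorem One.diff {U : Set (ℂ × ℂ)} {φ : ℂ × ℂ → ℝ} (o : One U φ) : DifferentiableOn ℂ f0 U :=
  f0_diff.mono o.sub

theorem One.fin {U : Set (ℂ × ℂ)} {φ : ℂ × ℂ → ℝ} (o : One U φ) : ∫⁻ p in U, ‖f0 p ^ 2‖ₑ ≠ ∞ := by
  simp only [enorm_pow]
  exact ((lintegral_mono_set o.sub).trans_lt f0_sq_lt_top).ne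

theorem four {u v : ℂ} {M J : ℝ≥0∞} (hu : ‖u ^ 2‖ₑ * M ≤ J) (hv : ‖v ^ 2‖ₑ * M ≤ J) :
    ‖(u + v) ^ 2‖ₑ * M ≤ 4 * J := by
  wlog h : ‖v‖ₑ ≤ ‖u‖ₑ generalizing u v
  · rw [add_comm]; exact this hv hu (le_of_not_ge h)
  calc _ ≤ (‖u‖ₑ + ‖u‖ₑ) ^ 2 * M := by
        rw [enorm_pow]
        gcongr
        exact (enorm_add_le u v).trans (by gcongr)
    _ = 4 * (‖u ^ 2‖ₑ * M) := by rw [enorm_pow]; ring
    _ ≤ _ := by gcongr

namespace Dat

set_option linter.unusedSectionVars false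

variable {X : Type} [NormedAddCommGroup X] [NormedSpace ℂ X] [ProperSpace X] [MeasureSpace X]
  [BorelSpace X] [(volume : Measure X).IsAddHaarMeasure] {k : ℕ} {A : Dat X k} {p : X × Q} {x : X}
  {y : ℂ}

theorem ff_ne {r : Q} (hr : r ∈ A.U ×ˢ A.U') : ff r ≠ 0 :=
  mul_ne_zero (f0_ne (A.o.sub hr.1)) (f0_ne (A.o'.sub hr.2))

theorem ff_diff : DifferentiableOn ℂ ff (A.U ×ˢ A.U') :=
  (A.o.diff.comp differentiableOn_fst fun _ h => h.1).mul
    (A.o'.diff.comp differentiableOn_snd fun _ h => h.2)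

theorem ff_fin : ∫⁻ r in A.U ×ˢ A.U', ‖ff r ^ 2‖ₑ ≠ ∞ := by
  simp only [ff, mul_pow]
  rw [lint_prod A.o.op A.o'.op (a := fun p => f0 p ^ 2) (b := fun p => f0 p ^ 2)
    (A.o.diff.continuousOn.pow 2) (A.o'.diff.continuousOn.pow 2)]
  exact ENNReal.mul_ne_top A.o.fin A.o'.fin

theorem two {G : Q → ℂ} (hG : DifferentiableOn ℂ G (A.U ×ˢ A.U'))
    (h : ∫⁻ r in A.U ×ˢ A.U', ‖G r ^ 2‖ₑ ≠ ∞) : ∃ a : ℂ, ∀ r ∈ A.U ×ˢ A.U', G r = a * ff r := by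
  obtain ⟨c, h1, h2, h3⟩ := tensor A.o.op A.o'.op A.o'.ne (w := fun _ => 1) (w' := fun _ => 1)
    continuousOn_const continuousOn_const A.o'.diff.continuousOn (fun _ _ => one_ne_zero)
    (fun z hz => ⟨one_ne_zero, f0_ne (A.o'.sub hz)⟩)
    (fun g hg hg' => A.o'.sp g hg (by simpa only [mul_one, enorm_pow] using hg')) hG
    (by simpa only [mul_one] using h)
  obtain ⟨a, ha⟩ := A.o.sp c h1 (by simpa only [mul_one, enorm_pow] using h2)
  exact ⟨a, fun r hr => by rw [h3 r.1 hr.1 r.2 hr.2, ha _ hr.1, ff, mul_assoc]⟩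

theorem g_diff (j : Fin k) : DifferentiableOn ℂ (A.g j) A.Ω := fun _ hp =>
  ((((A.w.anb j _).comp analyticAt_fst).mul (loc hp).2).differentiableAt.mul
    ((ff_diff.differentiableAt (S_op.mem_nhds (spec hp).2.2)).comp (f := A.Θ) _
      (Θ_an hp).differentiableAt)).differentiableWithinAt

theorem part : ∃ M : ℝ≥0∞, M ≠ 0 ∧ M ≠ ∞ ∧ ∀ (x : X) (y a : ℂ) (F : X × Q → ℂ), y ^ 2 = A.H x →
    y ≠ 0 → (∀ r ∈ A.U ×ˢ A.U', F (x, ti y r) = a * ff r) →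
    ∫⁻ r in tw y ⁻¹' A.U ×ˢ A.U', ‖F (x, r) ^ 2‖ₑ = ‖(a * (A.H x)⁻¹) ^ 2‖ₑ * M := by
  obtain ⟨δ, h0, h⟩ := cv
  refine ⟨‖δ⁻¹ ^ 2‖ₑ * ∫⁻ r in A.U ×ˢ A.U', ‖ff r ^ 2‖ₑ, mul_ne_zero (by simpa using h0)
    (lint_ne S_op (A.o.ne.prod A.o'.ne) (ff_diff.continuousOn.pow 2)
    fun r hr => pow_ne_zero 2 (ff_ne hr)), ENNReal.mul_ne_top enorm_ne_top ff_fin,
    fun x y a F h1 h2 h3 => ?_⟩
  rw [setLIntegral_congr_fun (S_op.preimage (tw_cont y)).measurableSet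
    (g := fun r => ‖a ^ 2‖ₑ * ‖ff (tw y r) ^ 2‖ₑ) fun r hr => by
      simp only [← h3 _ hr, ← enorm_mul, ← mul_pow, ti_tw h2],
    lintegral_const_mul' _ _ enorm_ne_top, h y h2 S_op (F := fun r => ff r ^ 2)
      (ff_diff.continuousOn.pow 2), h1, ← mul_assoc, ← mul_assoc, ← enorm_mul, ← enorm_mul]
  congr 2
  ring

/-- A square root. -/
noncomputable def sq (A : Dat X k) (x : X) : ℂ := A.H x ^ (((2 : ℕ) : ℂ)⁻¹)

theorem sq_sq (x : X) : A.sq x ^ 2 = A.H x := cpow_nat_inv_pow _ two_ne_zero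

theorem sq_ne (hx : A.H x ≠ 0) : A.sq x ≠ 0 := fun h => hx (by rw [← sq_sq, h]; simp)

theorem g_ti (j : Fin k) (h : y ^ 2 = A.H x) (hy : y ≠ 0) {r : Q} (hr : r ∈ A.U ×ˢ A.U') :
    A.g j (x, ti y r) = A.β j x * y * ff r := by
  rw [g, Θ, rt_eq (R_ti h hy hr), tw_ti hy]

theorem g_fin (j : Fin k) : ∫⁻ p in A.Ω, ‖A.g j p ^ 2‖ₑ ≠ ∞ := by
  obtain ⟨M, -, h1, h2⟩ := part (A := A)
  have h3 : ∀ x y, y ^ 2 = A.H x → y ≠ 0 → ∫⁻ r in tw y ⁻¹' A.U ×ˢ A.U', ‖A.g j (x, r) ^ 2‖ₑ =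
      M * ‖A.β j x ^ 2 * (A.H x)⁻¹‖ₑ := fun x y h hy => by
    rw [h2 x y _ _ h hy fun r hr => g_ti j h hy hr, mul_comm, ← h]
    congr 2
    field_simp
  rw [(ton op (F := fun p => A.g j p ^ 2) ((g_diff j).continuousOn.pow 2)).1]
  refine ne_top_of_le_ne_top (ENNReal.mul_ne_top (ENNReal.add_ne_top.2 ⟨h1, h1⟩) (A.w.fin j)) ?_
  rw [← lintegral_const_mul' _ _ (ENNReal.add_ne_top.2 ⟨h1, h1⟩),
    ← lintegral_indicator A.w.op.measurableSet]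
  refine lintegral_mono fun x => ?_
  by_cases hx : A.H x = 0
  · rw [show {r | (x, r) ∈ A.Ω} = ∅ from eq_empty_of_forall_notMem fun r hr => H_ne hr hx]
    simp
  · rw [indicator_of_mem (show x ∈ {x | A.H x ≠ 0} from hx), add_mul, ← h3 x _ (sq_sq x) (sq_ne hx)]
    nth_rw 2 [h3 x _ (sq_sq x) (sq_ne hx)]
    rw [← h3 x (-A.sq x) (by rw [neg_sq, sq_sq]) (neg_ne_zero.2 (sq_ne hx))]
    refine (lintegral_mono_set fun r hr => ?_).trans (lintegral_union_le _ _ _)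
    obtain ⟨y, a, -, b⟩ := hr
    rcases sq_eq_sq_iff_eq_or_eq_neg.1 (a.trans (sq_sq x).symm) with rfl | rfl
    exacts [Or.inl b, Or.inr b]

theorem g_ind (c : Fin k → ℂ) (h : ∀ p ∈ A.Ω, ∑ j, c j * A.g j p = 0) : c = 0 := by
  obtain ⟨r, hr⟩ := A.o.ne.prod A.o'.ne
  refine A.w.ind c fun x hx => ?_
  have h1 := h _ ⟨_, R_ti (sq_sq x) (sq_ne hx) hr⟩
  simp only [g_ti _ (sq_sq x) (sq_ne hx) hr, ← mul_assoc, ← Finset.sum_mul] at h1
  exact (mul_eq_zero.1 ((mul_eq_zero.1 h1).resolve_right (ff_ne hr))).resolve_right (sq_ne hx)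

theorem along {F : X × Q → ℂ} (hF : DifferentiableOn ℂ F A.Ω) {η : X → ℂ} (a : AnalyticAt ℂ η x)
    (h : η x ^ 2 = A.H x) (hy : η x ≠ 0) {r : Q} (hr : r ∈ A.U ×ˢ A.U') :
    DifferentiableAt ℂ (fun z => F (z, ti (η z) r)) x :=
  (hF.differentiableAt (op.mem_nhds ⟨_, R_ti h hy hr⟩)).comp (f := fun z => (z, ti (η z) r)) x
    (differentiableAt_id.prodMk ((differentiableAt_const _).prodMk (((a.differentiableAt.const_mul
      2).inv (mul_ne_zero two_ne_zero hy)).smul_const _)))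

theorem span {F : X × Q → ℂ} (hF : DifferentiableOn ℂ F A.Ω) (hfin : ∫⁻ p in A.Ω, ‖F p ^ 2‖ₑ ≠ ∞) :
    ∃ c : Fin k → ℂ, ∀ p ∈ A.Ω, F p = ∑ j, c j * A.g j p := by
  obtain ⟨r₀, h₀⟩ := A.o.ne.prod A.o'.ne
  obtain ⟨M, hM, hM', h2⟩ := part (A := A)
  obtain ⟨δ, hδ, hcv⟩ := cv
  obtain ⟨t1, t2⟩ := ton op (F := fun p => F p ^ 2) (hF.continuousOn.pow 2)
  have sub : ∀ x y, y ^ 2 = A.H x → y ≠ 0 → tw y ⁻¹' A.U ×ˢ A.U' ⊆ {r | (x, r) ∈ A.Ω} :=
    fun x y h hy r hr => ⟨y, h, hy, hr⟩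
  let C : X → ℂ → ℂ := fun x y => F (x, ti y r₀) * (ff r₀)⁻¹
  have hC : ∀ x y, y ^ 2 = A.H x → y ≠ 0 → ∀ r ∈ A.U ×ˢ A.U', F (x, ti y r) = C x y * ff r := by
    intro x y h hy r hr
    obtain ⟨η, a, rfl, c⟩ := branch h hy
    refine dens (t2 hfin) (u := fun z => F (z, ti (η z) r)) (v := fun z => C z (η z) * ff r)
      (along hF a h hy hr).continuousAt
      (((along hF a h hy h₀).continuousAt.mul_const _).mul_const _) (c.mono fun z hz hJ => ?_)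
    have h3 : DifferentiableOn ℂ (fun r => F (z, ti (η z) r)) (A.U ×ˢ A.U') :=
      hF.comp (by unfold ti; fun_prop) fun r hr => ⟨_, R_ti hz.1 hz.2 hr⟩
    have h4 := hcv _ hz.2 S_op (F := fun r => F (z, ti (η z) r) ^ 2) (h3.continuousOn.pow 2)
    simp only [ti_tw hz.2] at h4
    obtain ⟨b, hb⟩ := two h3 (ENNReal.lt_top_of_mul_ne_top_right (h4 ▸ ne_top_of_le_ne_top hJ
      (lintegral_mono_set (sub _ _ hz.1 hz.2))) (by simpa using And.intro hz.2 hδ)).ne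
    simp only [C, hb r hr, hb r₀ h₀, mul_inv_cancel_right₀ (ff_ne h₀)]
  have hJ : ∀ x y, y ^ 2 = A.H x → y ≠ 0 → ‖(C x y * (A.H x)⁻¹) ^ 2‖ₑ * M ≤
      ∫⁻ r in {r | (x, r) ∈ A.Ω}, ‖F (x, r) ^ 2‖ₑ := fun x y h hy =>
    h2 x y _ F h hy (hC x y h hy) ▸ lintegral_mono_set (sub x y h hy)
  have key : ∀ (e : ℂ → ℂ) (w : X → ℂ), (∀ y ≠ 0, DifferentiableAt ℂ e y) →
      (∀ x, A.H x ≠ 0 → ‖(C x (A.sq x) * e (A.sq x) + C x (-A.sq x) * e (-A.sq x)) ^ 2 * w x‖ₑ * M ≤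
        4 * ∫⁻ r in {r | (x, r) ∈ A.Ω}, ‖F (x, r) ^ 2‖ₑ) →
      DifferentiableOn ℂ (fun x => C x (A.sq x) * e (A.sq x) + C x (-A.sq x) * e (-A.sq x))
        {x | A.H x ≠ 0} ∧ ∫⁻ x in {x | A.H x ≠ 0},
        ‖(C x (A.sq x) * e (A.sq x) + C x (-A.sq x) * e (-A.sq x)) ^ 2 * w x‖ₑ ≠ ∞ := by
    refine fun e w he hw => ⟨fun x hx => ?_, fun h => ?_⟩
    · obtain ⟨η, a, b, c⟩ := branch (sq_sq x) (sq_ne hx)
      obtain ⟨c1, c2⟩ := c.self_of_nhds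
      have c3 := neg_ne_zero.2 c2
      refine (((((along hF a c1 c2 h₀).mul_const (ff r₀)⁻¹).mul ((he _ c2).comp x
        a.differentiableAt)).add (((along hF a.neg ((neg_sq _).trans c1) c3 h₀).mul_const
        (ff r₀)⁻¹).mul ((he _ c3).comp x a.neg.differentiableAt))).congr_of_eventuallyEq
        (c.mono fun z hz => ?_)).differentiableWithinAt
      rcases sq_eq_sq_iff_eq_or_eq_neg.1 ((sq_sq z).trans hz.1.symm) with h | h
      · simp only [h]; rfl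
      · simp only [h, neg_neg]; exact add_comm _ _
    · have h3 := setLIntegral_mono' (μ := volume) A.w.op.measurableSet hw
      rw [lintegral_mul_const' _ _ hM', h, ENNReal.top_mul hM, lintegral_const_mul' _ _ (by simp),
        top_le_iff] at h3
      exact ENNReal.mul_ne_top (by simp) (ne_top_of_le_ne_top (t1 ▸ hfin)
        (setLIntegral_le_lintegral _ _)) h3
  have n1 := fun x => (neg_sq (A.sq x)).trans (sq_sq x)
  obtain ⟨a1, a2⟩ := key (fun y => (y ^ 2)⁻¹) (fun _ => 1)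
    (fun y hy => (differentiableAt_id.pow 2).inv (pow_ne_zero 2 hy)) fun x hx => by
      simp only [mul_one, neg_sq, sq_sq]
      exact four (hJ x _ (sq_sq x) (sq_ne hx)) (hJ x _ (n1 x) (neg_ne_zero.2 (sq_ne hx)))
  obtain ⟨b1, b2⟩ := key (fun y => y⁻¹) (fun x => (A.H x)⁻¹)
    (fun y hy => differentiableAt_id.inv hy) fun x hx => by
      have h3 := hJ x _ (n1 x) (neg_ne_zero.2 (sq_ne hx))
      rw [← neg_sq] at h3
      convert four (hJ x _ (sq_sq x) (sq_ne hx)) h3 using 3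
      have := sq_ne hx
      rw [← sq_sq x]
      field_simp
  obtain ⟨c, hc⟩ := A.w.sp _ b1 b2
  refine ⟨fun j => c j / 2, fun p hp => ?_⟩
  obtain ⟨d1, d2, d3⟩ := spec hp
  have e1 := A.w.zero _ a1 (by simpa only [mul_one] using a2) _ (H_ne hp)
  have e2 := hc _ (H_ne hp)
  have e3 := hC _ _ d1 d2 _ d3
  have e4 : ∑ j, c j / 2 * A.g j p = (∑ j, c j * A.β j p.1) / 2 * A.rt p * ff (A.Θ p) := by
    simp only [Finset.sum_div, Finset.sum_mul, g]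
    exact Finset.sum_congr rfl fun j _ => by ring
  rw [ti_tw d2] at e3
  rw [e4, ← e2, e3, Θ]
  congr 1
  rcases sq_eq_sq_iff_eq_or_eq_neg.1 ((sq_sq p.1).trans d1.symm) with h | h <;>
    simp only [h, neg_neg, neg_sq, ← add_mul] at e1 ⊢ <;>
    have := (mul_eq_zero.1 e1).resolve_right (inv_ne_zero (pow_ne_zero 2 d2)) <;>
    field_simp <;> linear_combination this

theorem conn : IsConnected A.Ω := by
  classical
  obtain ⟨r, hr⟩ := A.o.ne.prod A.o'.ne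
  obtain ⟨x, hx⟩ := A.w.ne
  obtain ⟨j, hj⟩ := A.w.one
  refine ⟨⟨_, _, R_ti (sq_sq x) (sq_ne hx) hr⟩, ?_⟩
  rintro u v hu hv huv ⟨a, ha, hau⟩ ⟨b, hb, hbv⟩
  by_contra hne
  have hdisj : ∀ p ∈ A.Ω, p ∈ v → p ∉ u := fun p hp h2 h1 => hne ⟨p, hp, h1, h2⟩
  obtain ⟨c, hc⟩ := span (A := A) (F := u.indicator (A.g j)) (fun p hp => by
    apply DifferentiableAt.differentiableWithinAt
    rcases huv hp with h | h
    · refine ((g_diff j).differentiableAt (op.mem_nhds hp)).congr_of_eventuallyEq ?_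
      filter_upwards [hu.mem_nhds h] with q hq using indicator_of_mem hq _
    · refine (differentiableAt_const (0 : ℂ)).congr_of_eventuallyEq ?_
      filter_upwards [hv.mem_nhds h, op.mem_nhds hp] with q hq hq'
      exact indicator_of_notMem (hdisj q hq' hq) _)
    (ne_top_of_le_ne_top (g_fin j) (lintegral_mono fun p => by by_cases h : p ∈ u <;> simp [h]))
  have h1 : ∀ p ∈ A.Ω, ∀ t : ℂ, u.indicator (A.g j) p = t * A.g j p →
      ∑ i, c i * A.β i p.1 = t := fun p hp t h => by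
    rw [hc p hp] at h
    simp only [g, hj, one_mul, ← mul_assoc, ← Finset.sum_mul] at h
    exact mul_right_cancel₀ (spec hp).2.1 (mul_right_cancel₀ (ff_ne (spec hp).2.2) h)
  have h2 : (fun x => ∑ i, c i * A.β i x) = fun _ => 1 :=
    AnalyticOnNhd.eq_of_eventuallyEq (z₀ := a.1) (fun x _ => Finset.analyticAt_fun_sum _ fun i _ =>
      analyticAt_const.mul (A.w.anb i x)) analyticOnNhd_const (by
      filter_upwards [(Continuous.tendsto (f := fun x => (x, a.2)) (by fun_prop) a.1).eventually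
        ((op.inter hu).mem_nhds ⟨ha, hau⟩)] with z hz
      exact h1 _ hz.1 1 (by rw [indicator_of_mem hz.2, one_mul]))
  exact one_ne_zero ((congrFun h2 b.1).symm.trans
    (h1 b hb 0 (by rw [indicator_of_notMem (hdisj b hb hbv), zero_mul])))

end Dat

end Pool.Agent.P.MP_97162c_an.K
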