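import Pool.Agent.P.MP_97162c_an.Basic
import Pool.Agent.P.MP_97162c_an.Data

/-! Slices, tensor products and the square integrable forms of double covers. -/

namespace Pool.Agent.P.MP_97162c_an.K

open Set Filter Topology Metric Complex MeasureTheory Asymptotics
open scoped Real ENNReal

section

variable {X Z : Type} [NormedAddCommGroup X] [NormedSpace ℂ X] [ProperSpace X] [MeasureSpace X]
  [BorelSpace X] [(volume : Measure X).IsAddHaarMeasure] [NormedAddCommGroup Z] [NormedSpace ℂ Z]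
  [ProperSpace Z] [MeasureSpace Z] [BorelSpace Z] [(volume : Measure Z).IsAddHaarMeasure]

set_option linter.unusedSectionVars false

theorem meas_ind {U : Set X} (hU : IsOpen U) {h : X → ℂ} (hh : ContinuousOn h U) :
    Measurable (U.indicator fun x => ‖h x‖ₑ) := by
  classical
  have h1 := (hh.measurable_piecewise (continuousOn_const (c := (0 : ℂ))) hU.measurableSet).enorm
  convert h1 using 2 with x
  by_cases hx : x ∈ U <;> simp [hx]

theorem ton {O : Set (X × Z)} (hO : IsOpen O) {F : X × Z → ℂ} (hF : ContinuousOn F O) :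
    ∫⁻ p in O, ‖F p‖ₑ = ∫⁻ x, ∫⁻ z in {z | (x, z) ∈ O}, ‖F (x, z)‖ₑ ∧
      (∫⁻ p in O, ‖F p‖ₑ ≠ ∞ → ∀ᵐ x, ∫⁻ z in {z | (x, z) ∈ O}, ‖F (x, z)‖ₑ ≠ ∞) := by
  have : (volume : Measure (X × Z)).IsAddHaarMeasure := Measure.prod.instIsAddHaarMeasure _ _
  have hm := meas_ind hO hF
  have h1 : ∀ x, ∫⁻ z in {z | (x, z) ∈ O}, ‖F (x, z)‖ₑ =
      ∫⁻ z, O.indicator (fun p => ‖F p‖ₑ) (x, z) := fun x =>
    (lintegral_indicator (hO.preimage (f := fun z => (x, z)) (by fun_prop)).measurableSet _).symm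
  have h2 : ∫⁻ p in O, ‖F p‖ₑ = ∫⁻ x, ∫⁻ z, O.indicator (fun p => ‖F p‖ₑ) (x, z) := by
    rw [← lintegral_indicator hO.measurableSet, Measure.volume_eq_prod,
      lintegral_prod _ hm.aemeasurable]
  simp only [h1]
  exact ⟨h2, fun h => (ae_lt_top hm.lintegral_prod_right' (h2 ▸ h)).mono fun x hx => hx.ne⟩

theorem dens {p : X → Prop} (hp : ∀ᵐ x, p x) {u v : X → ℂ} {x : X} (hu : ContinuousAt u x)
    (hv : ContinuousAt v x) (h : ∀ᶠ y in 𝓝 x, p y → u y = v y) : u x = v x :=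
  tendsto_nhds_unique_of_frequently_eq hu hv
    ((mem_closure_iff_frequently.1 (Measure.dense_of_ae hp x)).mp h)

theorem lint_ne {U : Set Z} (hU : IsOpen U) (hn : U.Nonempty) {f : Z → ℂ} (hf : ContinuousOn f U)
    (h0 : ∀ z ∈ U, f z ≠ 0) : ∫⁻ z in U, ‖f z‖ₑ ≠ 0 := fun h => by
  rw [← lintegral_indicator hU.measurableSet, lintegral_eq_zero_iff (meas_ind hU hf)] at h
  obtain ⟨z, hz, h1⟩ := (Measure.dense_of_ae h).inter_open_nonempty U hU hn
  exact h0 z hz (by simpa [hz] using h1)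

theorem lint_prod {U : Set X} {U' : Set Z} (hU : IsOpen U) (hU' : IsOpen U') {a : X → ℂ}
    {b : Z → ℂ} (ha : ContinuousOn a U) (hb : ContinuousOn b U') :
    ∫⁻ p in U ×ˢ U', ‖a p.1 * b p.2‖ₑ = (∫⁻ x in U, ‖a x‖ₑ) * ∫⁻ z in U', ‖b z‖ₑ := by
  rw [Measure.volume_eq_prod, ← Measure.prod_restrict, ← lintegral_prod_mul
    (ha.aemeasurable hU.measurableSet).enorm (hb.aemeasurable hU'.measurableSet).enorm]
  simp only [enorm_mul]

theorem tensor {U : Set X} {U' : Set Z} (hU : IsOpen U) (hU' : IsOpen U') (hn : U'.Nonempty)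
    {w : X → ℂ} {w' f : Z → ℂ} (hw : ContinuousOn w U) (hw' : ContinuousOn w' U')
    (hf : ContinuousOn f U') (h0 : ∀ x ∈ U, w x ≠ 0) (h0' : ∀ z ∈ U', w' z ≠ 0 ∧ f z ≠ 0)
    (sp : ∀ g : Z → ℂ, DifferentiableOn ℂ g U' → ∫⁻ z in U', ‖g z ^ 2 * w' z‖ₑ ≠ ∞ →
      ∃ a : ℂ, ∀ z ∈ U', g z = a * f z) {G : X × Z → ℂ} (hG : DifferentiableOn ℂ G (U ×ˢ U'))
    (hfin : ∫⁻ p in U ×ˢ U', ‖G p ^ 2 * (w p.1 * w' p.2)‖ₑ ≠ ∞) :
    ∃ c : X → ℂ, DifferentiableOn ℂ c U ∧ ∫⁻ x in U, ‖c x ^ 2 * w x‖ₑ ≠ ∞ ∧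
      ∀ x ∈ U, ∀ z ∈ U', G (x, z) = c x * f z := by
  obtain ⟨z₀, hz₀⟩ := hn
  have d1 : ∀ z ∈ U', DifferentiableOn ℂ (fun x => G (x, z)) U := fun z hz =>
    hG.comp (by fun_prop) fun x hx => ⟨hx, hz⟩
  have hc : DifferentiableOn ℂ (fun x => G (x, z₀) * (f z₀)⁻¹) U := (d1 z₀ hz₀).mul_const _
  have h1 := (ton (hU.prod hU') ((hG.continuousOn.pow 2).mul ((hw.comp continuousOn_fst
    fun p hp => hp.1).mul (hw'.comp continuousOn_snd fun p hp => hp.2)))).2 hfin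
  have h2 : ∀ x ∈ U, ∀ z ∈ U', G (x, z) = G (x, z₀) * (f z₀)⁻¹ * f z := fun x hx z hz => by
    refine dens h1 ((d1 z hz).continuousOn.continuousAt (hU.mem_nhds hx))
      ((hc.mul_const _).continuousOn.continuousAt (hU.mem_nhds hx)) ?_
    filter_upwards [hU.mem_nhds hx] with y hy h
    obtain ⟨a, ha⟩ := sp (fun z => G (y, z)) (hG.comp (by fun_prop) fun z hz => ⟨hy, hz⟩) (by
      simp only [mem_prod, hy, true_and, ofPred_mem_eq, Pi.mul_apply, Pi.pow_apply,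
        Function.comp, mul_left_comm _ (w y), enorm_mul (w y)] at h
      rw [lintegral_const_mul' _ _ enorm_ne_top] at h
      exact (ENNReal.lt_top_of_mul_ne_top_right h (by simpa using h0 y hy)).ne)
    rw [ha z hz, ha z₀ hz₀, mul_inv_cancel_right₀ (h0' z₀ hz₀).2]
  refine ⟨_, hc, ?_, h2⟩
  rw [setLIntegral_congr_fun (hU.prod hU').measurableSet (g := fun p =>
    ‖(G (p.1, z₀) * (f z₀)⁻¹) ^ 2 * w p.1 * (f p.2 ^ 2 * w' p.2)‖ₑ) fun p hp => by
      simp only [h2 p.1 hp.1 p.2 hp.2]; congr 1; ring,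
    lint_prod hU hU' (a := fun x => (G (x, z₀) * (f z₀)⁻¹) ^ 2 * w x) (b := fun z => f z ^ 2 * w' z)
      ((hc.continuousOn.pow 2).mul hw) ((hf.pow 2).mul hw')] at hfin
  exact (ENNReal.lt_top_of_mul_ne_top_left hfin (lint_ne hU' ⟨z₀, hz₀⟩ ((hf.pow 2).mul hw')
    fun z hz => mul_ne_zero (pow_ne_zero 2 (h0' z hz).2) (h0' z hz).1)).ne

/-- The square integrable top forms on the double cover `y ^ 2 = H` have the basis `β j / y`. -/
structure Wt (H : X → ℂ) {k : ℕ} (β : Fin k → X → ℂ) : Prop where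
  an : ∀ x, AnalyticAt ℂ H x
  ne : {x | H x ≠ 0}.Nonempty
  anb : ∀ j x, AnalyticAt ℂ (β j) x
  one : ∃ j, ∀ x, β j x = 1
  fin : ∀ j, ∫⁻ x in {x | H x ≠ 0}, ‖β j x ^ 2 * (H x)⁻¹‖ₑ ≠ ∞
  ind : ∀ c : Fin k → ℂ, (∀ x, H x ≠ 0 → ∑ j, c j * β j x = 0) → c = 0
  zero : ∀ a : X → ℂ, DifferentiableOn ℂ a {x | H x ≠ 0} →
    ∫⁻ x in {x | H x ≠ 0}, ‖a x ^ 2‖ₑ ≠ ∞ → ∀ x, H x ≠ 0 → a x = 0
  sp : ∀ b : X → ℂ, DifferentiableOn ℂ b {x | H x ≠ 0} →
    ∫⁻ x in {x | H x ≠ 0}, ‖b x ^ 2 * (H x)⁻¹‖ₑ ≠ ∞ →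
      ∃ c : Fin k → ℂ, ∀ x, H x ≠ 0 → b x = ∑ j, c j * β j x

theorem Wt.cont {H : X → ℂ} {k : ℕ} {β : Fin k → X → ℂ} (h : Wt H β) : Continuous H :=
  continuous_iff_continuousAt.2 fun x => (h.an x).continuousAt

theorem Wt.op {H : X → ℂ} {k : ℕ} {β : Fin k → X → ℂ} (h : Wt H β) : IsOpen {x | H x ≠ 0} :=
  isOpen_ne_fun h.cont continuous_const

theorem Wt.prod [(volume : Measure (X × Z)).IsAddHaarMeasure] {H : X → ℂ} {k : ℕ}
    {β : Fin k → X → ℂ} (h : Wt H β) {H' : Z → ℂ} {β' : Fin 1 → Z → ℂ} (h' : Wt H' β') :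
    Wt (fun p : X × Z => H p.1 * H' p.2) fun j p => β j p.1 := by
  have e : {p : X × Z | H p.1 * H' p.2 ≠ 0} = {x | H x ≠ 0} ×ˢ {z | H' z ≠ 0} := by
    ext p; simp
  have c1 : ContinuousOn (fun x => (H x)⁻¹) {x | H x ≠ 0} := h.cont.continuousOn.inv₀ fun _ => id
  have c2 : ContinuousOn (fun x => (H' x)⁻¹) {x | H' x ≠ 0} := h'.cont.continuousOn.inv₀ fun _ => id
  have h1 : ∀ z, β' 0 z = 1 := by
    obtain ⟨j, hj⟩ := h'.one
    rwa [Subsingleton.elim j 0] at hj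
  obtain ⟨z₀, hz₀⟩ := h'.ne
  refine ⟨fun p => ((h.an _).comp analyticAt_fst).mul ((h'.an _).comp analyticAt_snd),
    e ▸ h.ne.prod h'.ne, fun j p => (h.anb j _).comp analyticAt_fst,
    h.one.imp fun j hj p => hj _, fun j => ?_,
    fun c hc => h.ind c fun x hx => hc (x, z₀) (mul_ne_zero hx hz₀), fun a ha hfin p hp => ?_,
    fun b hb hfin => ?_⟩
  · simp only [e, mul_inv, ← mul_assoc]
    rw [lint_prod h.op h'.op (a := fun x => β j x ^ 2 * (H x)⁻¹) ((ContinuousOn.pow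
      (fun x _ => (h.anb j x).continuousAt.continuousWithinAt) 2).mul c1) c2]
    exact ENNReal.mul_ne_top (h.fin j) (by simpa only [h1, one_pow, one_mul] using h'.fin 0)
  · rw [e] at ha hfin
    obtain ⟨p1, p2⟩ := mul_ne_zero_iff.1 hp
    refine dens (u := fun x => a (x, p.2)) (v := fun _ => 0)
      ((ton (h.op.prod h'.op) (ha.continuousOn.pow 2)).2 hfin) ((ha.continuousOn.comp
        (f := fun x => (x, p.2)) (by fun_prop) fun x hx => ⟨hx, p2⟩).continuousAt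
        (h.op.mem_nhds p1)) continuousAt_const ?_
    filter_upwards [h.op.mem_nhds p1] with y (hy : y ∈ {x | H x ≠ 0}) h2
    refine h'.zero (fun z => a (y, z)) (ha.comp (by fun_prop) fun z hz => ⟨hy, hz⟩) ?_ _ p2
    simpa only [mem_prod, hy, true_and, ofPred_mem_eq, Pi.pow_apply] using h2
  · rw [e] at hb hfin
    obtain ⟨c, h2, h3, h4⟩ := tensor h.op h'.op h'.ne c1 c2 (f := fun _ => 1) continuousOn_const
      (fun x hx => inv_ne_zero hx) (fun z hz => ⟨inv_ne_zero hz, one_ne_zero⟩) (fun g hg hg' => by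
        obtain ⟨a, ha⟩ := h'.sp g hg hg'
        exact ⟨a 0, fun z hz => by simpa [h1] using ha z hz⟩) hb (by simpa only [mul_inv] using hfin)
    obtain ⟨a, ha⟩ := h.sp c h2 h3
    exact ⟨a, fun p hp => by
      rw [h4 p.1 (left_ne_zero_of_mul hp) p.2 (right_ne_zero_of_mul hp), mul_one,
        ha _ (left_ne_zero_of_mul hp)]⟩

end

theorem poly (k : ℕ) : ∀ B : ℂ → ℂ, Differentiable ℂ B → (B =o[cocompact ℂ] fun x => x ^ k) →
    ∃ c : Fin k → ℂ, ∀ x, B x = ∑ j, c j * x ^ (j : ℕ) := by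
  induction k with
  | zero =>
    exact fun B h1 h2 => ⟨0, fun x => by
      simpa using h1.apply_eq_of_tendsto_cocompact x ((isLittleO_one_iff ℂ).1 (by simpa using h2))⟩
  | succ k ih =>
    intro B h1 h2
    have h3 : (fun x => B x - B 0) =o[cocompact ℂ] fun x => x ^ (k + 1) :=
      h2.sub (isLittleO_const_left.2 (Or.inr (((tendsto_pow_atTop k.succ_ne_zero).comp
        (tendsto_norm_cocompact_atTop (E := ℂ))).congr fun x => (norm_pow x _).symm)))
    have h4 : ∀ᶠ x in cocompact ℂ, x ≠ 0 := isCompact_singleton.compl_mem_cocompact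
    obtain ⟨c, hc⟩ := ih (dslope B 0) (differentiableOn_univ.1 ((differentiableOn_dslope
      univ_mem).2 h1.differentiableOn)) (((isBigO_refl (fun x : ℂ => x⁻¹) _).mul_isLittleO
      h3).congr' (h4.mono fun x hx => by simp [dslope_of_ne _ hx, slope_def_field, div_eq_inv_mul])
      (h4.mono fun x hx => by simp only [pow_succ', inv_mul_cancel_left₀ hx]))
    refine ⟨Fin.cons (B 0) c, fun x => ?_⟩
    have h5 := sub_smul_dslope B 0 x
    rw [hc, sub_zero, smul_eq_mul, Finset.mul_sum, eq_sub_iff_add_eq'] at h5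
    rw [← h5, Fin.sum_univ_succ]
    simp only [Fin.cons_zero, Fin.cons_succ, Fin.val_zero, Fin.val_succ, pow_zero, mul_one, pow_succ',
      mul_left_comm x]

/-- The branch polynomial. -/
def hp (k : ℕ) (x : ℂ) : ℂ := x ^ (2 * k + 1) - 1

theorem hp_diff (k : ℕ) : Differentiable ℂ (hp k) := by unfold hp; fun_prop

theorem hp_loc (k : ℕ) (x : ℂ) : ∀ᶠ z in 𝓝[≠] x, z ∉ {z | hp k z = 0} :=
  entire_locfin (hp_diff k) (z₀ := 0) (by simp [hp]) x

theorem mv_real {k : ℕ} {g : ℂ → ℂ} (hg : DifferentiableOn ℂ g {x | hp k x ≠ 0}) {c : ℂ}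
    (hc : hp k c ≠ 0) {η B : ℝ} (hη : 0 ≤ η) (hB : 0 ≤ B) {M : ℝ≥0∞} (hM : M ≠ ∞)
    (h : ∫⁻ z in ball c η \ {z | hp k z = 0}, ‖g z‖ₑ ^ 2 ≤ ENNReal.ofReal B * M) :
    η ^ 2 * ‖g c‖ ^ 2 ≤ B * M.toReal := by
  have h1 := (mv_ball_diff (hp_loc k) (countable_of_locfin (hp_loc k))
    (hg.mono fun z hz => hz.2) hc).trans h
  have h2 := ENNReal.toReal_mono (ENNReal.mul_ne_top ENNReal.ofReal_ne_top hM) h1
  simp only [Complex.volume_ball, ENNReal.toReal_mul, ENNReal.toReal_pow, ENNReal.toReal_ofReal hη,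
    ENNReal.toReal_ofReal hB, toReal_enorm, ENNReal.coe_toReal, NNReal.coe_real_pi] at h2
  nlinarith [Real.pi_gt_three, mul_nonneg (sq_nonneg η) (sq_nonneg ‖g c‖)]

theorem hp_zero (k : ℕ) (a : ℂ → ℂ) (ha : DifferentiableOn ℂ a {x | hp k x ≠ 0})
    (hfin : ∫⁻ x in {x | hp k x ≠ 0}, ‖a x ^ 2‖ₑ ≠ ∞) (c : ℂ) (hc : hp k c ≠ 0) : a c = 0 := by
  by_contra h0
  have h1 : 0 < ‖a c‖ ^ 2 := by positivity
  set M := (∫⁻ x in {x | hp k x ≠ 0}, ‖a x ^ 2‖ₑ).toReal
  have h2 : 0 ≤ M / ‖a c‖ ^ 2 := div_nonneg ENNReal.toReal_nonneg h1.le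
  have h3 := mv_real ha hc (η := M / ‖a c‖ ^ 2 + 1) (by linarith) zero_le_one hfin (by
    simp only [ENNReal.ofReal_one, one_mul, enorm_pow]
    exact lintegral_mono_set fun z hz => hz.2)
  have h4 : M / ‖a c‖ ^ 2 * ‖a c‖ ^ 2 = M := div_mul_cancel₀ _ h1.ne'
  nlinarith [mul_nonneg (mul_nonneg h2 h2) h1.le, mul_nonneg h2 h1.le]

theorem hp_sp (k : ℕ) (b : ℂ → ℂ) (hb : DifferentiableOn ℂ b {x | hp k x ≠ 0})
    (hfin : ∫⁻ x in {x | hp k x ≠ 0}, ‖b x ^ 2 * (hp k x)⁻¹‖ₑ ≠ ∞) :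
    ∃ c : Fin k → ℂ, ∀ x, hp k x ≠ 0 → b x = ∑ j, c j * x ^ (j : ℕ) := by
  obtain ⟨C, hC⟩ : ∃ C : ℝ, ∀ c, hp k c ≠ 0 →
      (1 + ‖c‖) * ‖b c‖ ^ 2 ≤ C * (1 + ‖c‖) ^ (2 * k) := by
    refine ⟨2 * 2 ^ (2 * k + 1) * (∫⁻ x in {x | hp k x ≠ 0}, ‖b x ^ 2 * (hp k x)⁻¹‖ₑ).toReal,
      fun c hc => ?_⟩
    have h1 := mv_real hb hc (η := 1 + ‖c‖) (B := 2 * (2 * (1 + ‖c‖)) ^ (2 * k + 1))
      (by positivity) (by positivity) hfin (by
        rw [← lintegral_const_mul' _ _ ENNReal.ofReal_ne_top]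
        refine (setLIntegral_mono' (measurableSet_ball.diff (countable_of_locfin
          (hp_loc k)).measurableSet) fun z hz => ?_).trans (lintegral_mono_set fun z hz => hz.2)
        refine (le_of_eq (b := ENNReal.ofReal ‖hp k z‖ * ‖b z ^ 2 * (hp k z)⁻¹‖ₑ) (by
          rw [ofReal_norm, ← enorm_mul, mul_comm, inv_mul_cancel_right₀ hz.2, enorm_pow])).trans ?_
        gcongr
        have h2 : ‖z‖ ≤ 2 * (1 + ‖c‖) := by
          linarith [norm_le_norm_add_norm_sub' z c, mem_ball_iff_norm.1 hz.1, norm_nonneg c]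
        have h3 := pow_le_pow_left₀ (norm_nonneg z) h2 (2 * k + 1)
        have h4 : 1 ≤ (2 * (1 + ‖c‖)) ^ (2 * k + 1) := one_le_pow₀ (by linarith [norm_nonneg c])
        have h5 := norm_sub_le (z ^ (2 * k + 1)) 1
        rw [norm_pow, norm_one] at h5
        rw [hp]
        linarith)
    refine le_of_mul_le_mul_left (a := 1 + ‖c‖) ?_ (by positivity)
    rw [mul_pow 2, pow_succ (1 + ‖c‖) (2 * k)] at h1
    linarith
  obtain ⟨B, hB, hBb⟩ := exists_extend (g := b) isOpen_univ (fun x _ => hp_loc k x)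
    (hb.mono fun z hz => hz.2) (fun t _ _ => by
      have h1 : Tendsto (fun z : ℂ => ‖z - t‖ ^ 2 * (C * (1 + ‖z‖) ^ (2 * k))) (𝓝[≠] t) (𝓝 0) := by
        have : Tendsto (fun z : ℂ => ‖z - t‖ ^ 2 * (C * (1 + ‖z‖) ^ (2 * k))) (𝓝 t) (𝓝 _) :=
          Continuous.tendsto (by fun_prop) t
        simpa using this.mono_left nhdsWithin_le_nhds
      have h2 : Tendsto (fun z => ‖(z - t) * b z‖ ^ 2) (𝓝[≠] t) (𝓝 0) := by
        refine squeeze_zero' (Eventually.of_forall fun _ => sq_nonneg _) ?_ h1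
        filter_upwards [hp_loc k t] with z hz
        rw [norm_mul, mul_pow]
        gcongr
        nlinarith [hC z hz, mul_nonneg (norm_nonneg z) (sq_nonneg ‖b z‖)]
      rw [tendsto_zero_iff_norm_tendsto_zero]
      simpa only [Real.sqrt_sq (norm_nonneg _), Real.sqrt_zero] using h2.sqrt)
  have hB' := differentiableOn_univ.1 hB
  have h1 : ∀ c, (1 + ‖c‖) * ‖B c‖ ^ 2 ≤ C * (1 + ‖c‖) ^ (2 * k) := fun c => by
    have := hB'.continuous
    refine le_of_tendsto_of_tendsto (b := 𝓝[≠] c) (f := fun c => (1 + ‖c‖) * ‖B c‖ ^ 2)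
      (g := fun c => C * (1 + ‖c‖) ^ (2 * k)) ((Continuous.tendsto (by fun_prop) c).mono_left
      nhdsWithin_le_nhds) ((Continuous.tendsto (by fun_prop) c).mono_left nhdsWithin_le_nhds) ?_
    filter_upwards [hp_loc k c] with z hz
    rw [hBb z hz]
    exact hC z hz
  obtain ⟨c, hc⟩ := poly k B hB' (isLittleO_iff.2 fun ε hε => by
    filter_upwards [(tendsto_norm_cocompact_atTop (E := ℂ)).eventually_ge_atTop 1,
      (tendsto_norm_cocompact_atTop (E := ℂ)).eventually_ge_atTop (|C| * 2 ^ (2 * k) / ε ^ 2)] with z a b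
    rw [div_le_iff₀ (by positivity)] at b
    refine (pow_le_pow_iff_left₀ (norm_nonneg _) (by positivity) two_ne_zero).1
      (le_of_mul_le_mul_left (a := 1 + ‖z‖) ((h1 z).trans ?_) (by positivity))
    calc _ ≤ |C| * (2 * ‖z‖) ^ (2 * k) := by
          gcongr
          exacts [le_abs_self C, by linarith]
      _ = |C| * 2 ^ (2 * k) * ‖z‖ ^ (2 * k) := by ring
      _ ≤ (1 + ‖z‖) * ε ^ 2 * ‖z‖ ^ (2 * k) :=
          mul_le_mul_of_nonneg_right (by linarith [sq_nonneg ε]) (by positivity)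
      _ = _ := by rw [norm_pow]; ring)
  exact ⟨c, fun x hx => by rw [← hBb x hx, hc]⟩

theorem hp_fin {k j : ℕ} (hj : j < k) : Integrable fun x : ℂ => (x ^ j) ^ 2 * (hp k x)⁻¹ := by
  have hm : AEStronglyMeasurable (fun x : ℂ => (x ^ j) ^ 2 * (hp k x)⁻¹) volume :=
    (((measurable_id.pow_const j).pow_const 2).mul
      (hp_diff k).continuous.measurable.inv).aestronglyMeasurable
  refine LocallyIntegrable.integrable_of_isBigO_cocompact (fun c => ?_)
    (g := fun x : ℂ => (1 + ‖x‖) ^ (-(3 : ℝ))) ?_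
    ((integrable_one_add_norm (by norm_num)).integrableAtFilter _)
  · have hc : Continuous fun x : ℂ => (x ^ j) ^ 2 := by fun_prop
    by_cases h : hp k c = 0
    · have h1 : IntegrableOn (fun x : ℂ => x⁻¹) (ball 0 1) :=
        integrableOn_ball_of_norm_le_rpow (C := 1) (α := 1) (by simp) (by simp)
          (ae_of_all _ fun x => by simp [Real.rpow_neg_one]) measurable_inv.aestronglyMeasurable
      have h2 : IntegrableOn (fun x : ℂ => (x - c)⁻¹) (ball c 1) := by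
        have := (measurePreserving_sub_right volume c).integrableOn_comp_preimage
          (MeasurableEquiv.subRight c).measurableEmbedding |>.2 h1
        exact this.mono_set fun x hx => by simpa [dist_eq_norm] using hx
      have h3 : deriv (hp k) c ≠ 0 := by
        have : c ≠ 0 := by rintro rfl; simp [hp] at h
        unfold hp
        rw [deriv_sub_const, deriv_fun_pow differentiableAt_fun_id, deriv_id'', mul_one]
        exact mul_ne_zero (Nat.cast_ne_zero.2 (by omega)) (pow_ne_zero _ this)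
      refine IsBigO.integrableAtFilter ?_ hm.stronglyMeasurableAtFilter ⟨_, ball_mem_nhds c one_pos, h2⟩
      have h4 := (hc.continuousAt.mul ((continuousAt_dslope_same.2 (hp_diff k c)).inv₀
        (by rwa [dslope_same]))).isBigO_one ℂ |>.mul (isBigO_refl (fun x : ℂ => (x - c)⁻¹) _)
      refine h4.congr (fun x => ?_) fun x => one_mul _
      have h5 := sub_smul_dslope (hp k) c x
      rw [h, sub_zero, smul_eq_mul] at h5
      simp only [← h5, Pi.mul_apply, Pi.inv_apply, mul_inv]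
      ring
    · exact IsBigO.integrableAtFilter ((hc.continuousAt.mul ((hp_diff k c).continuousAt.inv₀
        h)).isBigO_one ℝ) hm.stronglyMeasurableAtFilter (locallyIntegrable_const 1 c)
  · refine IsBigO.of_bound 16 ?_
    filter_upwards [(tendsto_norm_cocompact_atTop (E := ℂ)).eventually_ge_atTop 2] with z hz
    have h1 : ‖z‖ ^ (2 * j + 3) ≤ ‖z‖ ^ (2 * k + 1) := pow_le_pow_right₀ (by linarith) (by omega)
    have h2 : 2 ≤ ‖z‖ ^ (2 * k + 1) := hz.trans (le_self_pow₀ (by linarith) (by omega))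
    have h3 := norm_sub_norm_le (z ^ (2 * k + 1)) 1
    rw [norm_pow, norm_one, ← hp] at h3
    have h4 : (1 + ‖z‖) ^ 3 ≤ (2 * ‖z‖) ^ 3 := by gcongr; linarith
    rw [Real.norm_of_nonneg (by positivity), Real.rpow_neg (by positivity), norm_mul, norm_inv,
      ← div_eq_mul_inv, ← div_eq_mul_inv, div_le_div_iff₀ (by linarith) (by positivity), norm_pow,
      norm_pow, Real.rpow_ofNat]
    calc _ ≤ (‖z‖ ^ j) ^ 2 * (2 * ‖z‖) ^ 3 := by gcongr
      _ = 8 * ‖z‖ ^ (2 * j + 3) := by ring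
      _ ≤ _ := by linarith

theorem wt_hp {k : ℕ} (hk : 0 < k) : Wt (hp k) fun (j : Fin k) x => x ^ (j : ℕ) := by
  refine ⟨(hp_diff k).analyticAt, ⟨0, by simp [hp]⟩, fun j x => analyticAt_id.pow _,
    ⟨⟨0, hk⟩, fun x => pow_zero x⟩, fun j => (hp_fin j.2).integrableOn.2.ne, fun c hc => ?_,
    hp_zero k, hp_sp k⟩
  have h1 : ∑ j : Fin k, Polynomial.monomial (j : ℕ) (c j) = 0 := by
    refine Polynomial.eq_zero_of_infinite_isRoot _ ((infinite_of_mem_nhds 0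
      (((hp_diff k).continuous.continuousAt (x := 0)).eventually_ne (y := 0)
      (by simp [hp]))).mono fun x hx => ?_)
    simpa [Polynomial.eval_finsetSum] using hc x hx
  ext j
  have h2 := congrArg (fun p => Polynomial.coeff p j) h1
  simpa [Polynomial.finsetSum_coeff, Polynomial.coeff_monomial, Fin.val_inj] using h2

theorem exists_wt {k : ℕ} (hk : 0 < k) (d : ℕ) : ∃ (X : Type) (_ : NormedAddCommGroup X)
    (_ : NormedSpace ℂ X) (_ : ProperSpace X) (_ : MeasureSpace X) (_ : BorelSpace X)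
    (_ : (volume : Measure X).IsAddHaarMeasure) (_ : FiniteDimensional ℂ X) (H : X → ℂ)
    (β : Fin k → X → ℂ), Module.finrank ℂ X = d + 1 ∧ Wt H β := by
  induction d with
  | zero => exact ⟨ℂ, _, _, inferInstance, _, inferInstance, inferInstance, inferInstance, _, _,
      Module.finrank_self ℂ, wt_hp hk⟩
  | succ d ih =>
    obtain ⟨X, _, _, _, _, _, _, _, H, β, h1, h2⟩ := ih
    have : (volume : Measure (X × ℂ)).IsAddHaarMeasure := Measure.prod.instIsAddHaarMeasure _ _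
    exact ⟨X × ℂ, _, _, inferInstance, _, inferInstance, this, inferInstance, _, _,
      by rw [Module.finrank_prod, h1, Module.finrank_self], h2.prod (wt_hp one_pos)⟩

end Pool.Agent.P.MP_97162c_an.K
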