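import Pool.Agent.P.MP_97162c_an.K.Ann
import Pool.Agent.P.MP_97162c_an.K.Wt

/-! The product of two disjoint domains with a double cover, embedded through the swap. -/

namespace Pool.Agent.P.MP_97162c_an.K

open Set Filter Topology Metric Complex MeasureTheory
open scoped Real ENNReal

/-- Complex 4-space. -/
abbrev Q := (ℂ × ℂ) × ℂ × ℂ

instance : (volume : Measure (ℂ × ℂ)).IsAddHaarMeasure := Measure.prod.instIsAddHaarMeasure _ _

instance : (volume : Measure Q).IsAddHaarMeasure := Measure.prod.instIsAddHaarMeasure _ _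

/-- The twist by `y`. -/
def tw (y : ℂ) (r : Q) : Q := (r.1 + y • r.2, r.1 - y • r.2)

/-- Its inverse. -/
noncomputable def ti (y : ℂ) (r : Q) : Q := ((2 : ℂ)⁻¹ • (r.1 + r.2), (2 * y)⁻¹ • (r.1 - r.2))

theorem tw_ti {y : ℂ} (hy : y ≠ 0) (r : Q) : tw y (ti y r) = r := by
  ext <;> simp [tw, ti] <;> field_simp <;> ring

theorem ti_tw {y : ℂ} (hy : y ≠ 0) (r : Q) : ti y (tw y r) = r := by
  ext <;> simp [tw, ti] <;> field_simp <;> ring

theorem tw_cont (y : ℂ) : Continuous (tw y) := by unfold tw; fun_prop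

theorem cv : ∃ δ : ℂ, δ ≠ 0 ∧ ∀ y ≠ 0, ∀ {S : Set Q} {F : Q → ℂ}, IsOpen S → ContinuousOn F S →
    ∫⁻ r in tw y ⁻¹' S, ‖F (tw y r)‖ₑ = ‖(δ * y ^ 2)⁻¹ ^ 2‖ₑ * ∫⁻ r in S, ‖F r‖ₑ := by
  let L : Q →ₗ[ℂ] Q := (LinearMap.fst ℂ _ _ + LinearMap.snd ℂ _ _).prod
    (LinearMap.fst ℂ _ _ - LinearMap.snd ℂ _ _)
  have hL : L.det ≠ 0 := fun h => LinearMap.det_eq_zero_iff_ker_ne_bot.1 h
    (LinearMap.ker_eq_bot.2 fun r r' h => by
      rw [← ti_tw one_ne_zero r, ← ti_tw one_ne_zero r']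
      simp only [tw, one_smul]
      exact congrArg (ti 1) h)
  refine ⟨L.det, hL, fun y hy S F hS hF => ?_⟩
  let M : Q →ₗ[ℂ] Q := L ∘ₗ LinearMap.id.prodMap (y • LinearMap.id)
  have h1 : (M.restrictScalars ℝ).det = ‖L.det * y ^ 2‖ ^ 2 := by
    rw [LinearMap.det_restrictScalars, Algebra.norm_complex_apply, normSq_eq_norm_sq,
      LinearMap.det_comp, LinearMap.det_prodMap, LinearMap.det_smul]
    simp
  have h2 := Measure.map_linearMap_addHaar_eq_smul_addHaar (volume : Measure Q)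
    (f := M.restrictScalars ℝ)
    (h1.trans_ne (pow_ne_zero 2 (norm_ne_zero_iff.2 (mul_ne_zero hL (pow_ne_zero 2 hy)))))
  calc _ = ∫⁻ r, S.indicator (fun r => ‖F r‖ₑ) (tw y r) :=
        (lintegral_indicator (hS.preimage (tw_cont y)).measurableSet _).symm
    _ = ∫⁻ r, S.indicator (fun r => ‖F r‖ₑ) r ∂Measure.map (M.restrictScalars ℝ) volume :=
        (lintegral_map (meas_ind hS hF) (tw_cont y).measurable).symm
    _ = _ := by
      rw [h2, lintegral_smul_measure, lintegral_indicator hS.measurableSet, h1, smul_eq_mul,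
        ← ofReal_norm, norm_pow, norm_inv, inv_pow, abs_of_nonneg (by positivity)]

/-- Continuity together with a holomorphic support from below. -/
def Gd {E : Type} [NormedAddCommGroup E] [NormedSpace ℂ E] (u : E → ℝ) (p : E) : Prop :=
  ContinuousAt u p ∧ ∃ g : E → ℂ, AnalyticAt ℂ g p ∧ (∀ᶠ q in 𝓝 p, (g q).re ≤ u q) ∧
    (g p).re = u p

section

variable {E E' : Type} [NormedAddCommGroup E] [NormedSpace ℂ E] [NormedAddCommGroup E']
  [NormedSpace ℂ E'] {u u' : E → ℝ} {p : E}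

theorem Gd.add (h : Gd u p) (h' : Gd u' p) : Gd (fun q => u q + u' q) p := by
  obtain ⟨a, g, b, c, d⟩ := h
  obtain ⟨a', g', b', c', d'⟩ := h'
  refine ⟨a.add a', fun q => g q + g' q, b.add b', ?_, by simp [d, d']⟩
  filter_upwards [c, c'] with q e e'
  rw [add_re]; linarith

theorem Gd.comp {v : E' → ℝ} {ψ : E → E'} (h : Gd v (ψ p)) (hψ : AnalyticAt ℂ ψ p) :
    Gd (fun q => v (ψ q)) p := by
  obtain ⟨a, g, b, c, d⟩ := h
  exact ⟨a.comp hψ.continuousAt, fun q => g (ψ q), b.comp hψ, hψ.continuousAt.eventually c, d⟩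

theorem gd_norm (p : E) : Gd (fun q : E => ‖q‖) p := by
  obtain ⟨g, h1, h2⟩ := exists_dual_vector'' ℂ p
  exact ⟨continuous_norm.continuousAt, g, g.analyticAt p, Eventually.of_forall fun q =>
    (re_le_norm _).trans ((g.le_of_opNorm_le h1 q).trans_eq (one_mul _)), by rw [h2]; rfl⟩

end

variable {X : Type} [NormedAddCommGroup X] [NormedSpace ℂ X] [ProperSpace X] [MeasureSpace X]
  [BorelSpace X] [(volume : Measure X).IsAddHaarMeasure]

/-- The data of the construction. -/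
structure Dat (X : Type) [NormedAddCommGroup X] [NormedSpace ℂ X] [MeasureSpace X] (k : ℕ) where
  H : X → ℂ
  β : Fin k → X → ℂ
  U : Set (ℂ × ℂ)
  U' : Set (ℂ × ℂ)
  φ : ℂ × ℂ → ℝ
  φ' : ℂ × ℂ → ℝ
  w : Wt H β
  o : One U φ
  o' : One U' φ'
  dj : Disjoint U U'

namespace Dat

set_option linter.unusedSectionVars false

variable {k : ℕ} (A : Dat X k)

/-- `y` is the root that carries `p` into the product. -/
def R (p : X × Q) (y : ℂ) : Prop := y ^ 2 = A.H p.1 ∧ y ≠ 0 ∧ tw y p.2 ∈ A.U ×ˢ A.U'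

/-- The domain. -/
def Ω : Set (X × Q) := {p | ∃ y, A.R p y}

/-- The root. -/
noncomputable def rt (p : X × Q) : ℂ := Classical.epsilon (A.R p)

/-- The point of the product. -/
noncomputable def Θ (p : X × Q) : Q := tw (A.rt p) p.2

/-- The exhaustion. -/
noncomputable def Φ (p : X × Q) : ℝ :=
  A.φ (A.Θ p).1 + A.φ' (A.Θ p).2 + ‖p.1‖ + ‖(A.H p.1)⁻¹‖

/-- The common factor. -/
noncomputable def ff (r : Q) : ℂ := f0 r.1 * f0 r.2

/-- The basis. -/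
noncomputable def g (j : Fin k) (p : X × Q) : ℂ := A.β j p.1 * A.rt p * ff (A.Θ p)

variable {A} {p : X × Q} {x : X} {y : ℂ}

theorem spec (hp : p ∈ A.Ω) : A.R p (A.rt p) := Classical.epsilon_spec hp

theorem rt_eq (h : A.R p y) : A.rt p = y := by
  have h1 := spec ⟨y, h⟩
  rcases sq_eq_sq_iff_eq_or_eq_neg.1 (h1.1.trans h.1.symm) with h2 | h2
  · exact h2
  · have h3 := h1.2.2.1
    rw [h2, tw, neg_smul, ← sub_eq_add_neg] at h3
    exact (disjoint_left.1 A.dj h3 h.2.2.2).elim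

theorem S_op : IsOpen (A.U ×ˢ A.U') := A.o.op.prod A.o'.op

theorem R_ti (h : y ^ 2 = A.H x) (hy : y ≠ 0) {r : Q} (hr : r ∈ A.U ×ˢ A.U') :
    A.R (x, ti y r) y := ⟨h, hy, by rwa [tw_ti hy]⟩

theorem branch (h : y ^ 2 = A.H x) (hy : y ≠ 0) : ∃ η : X → ℂ, AnalyticAt ℂ η x ∧ η x = y ∧
    ∀ᶠ z in 𝓝 x, η z ^ 2 = A.H z ∧ η z ≠ 0 := by
  have h0 : A.H x ≠ 0 := h ▸ pow_ne_zero 2 hy
  have h1 : AnalyticAt ℂ (fun z => y * (A.H z * (A.H x)⁻¹) ^ (((2 : ℕ) : ℂ)⁻¹)) x :=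
    analyticAt_const.mul (((A.w.an x).mul analyticAt_const).cpow analyticAt_const
      (by simp [h0]))
  have h2 : y * (A.H x * (A.H x)⁻¹) ^ (((2 : ℕ) : ℂ)⁻¹) = y := by simp [h0]
  refine ⟨_, h1, h2, (h1.continuousAt.eventually_ne (h2.trans_ne hy)).mono fun z hz => ⟨?_, hz⟩⟩
  rw [mul_pow, cpow_nat_inv_pow _ two_ne_zero, h, mul_comm, inv_mul_cancel_right₀ h0]

theorem loc (hp : p ∈ A.Ω) : (∀ᶠ q in 𝓝 p, q ∈ A.Ω) ∧ AnalyticAt ℂ A.rt p := by
  obtain ⟨y, h1, h2, h3⟩ := hp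
  obtain ⟨η, a, b, c⟩ := branch h1 h2
  have h4 : AnalyticAt ℂ (fun q : X × Q => η q.1) p := a.comp analyticAt_fst
  have h5 : ContinuousAt (fun q : X × Q => tw (η q.1) q.2) p := by
    have := h4.continuousAt
    unfold tw; fun_prop
  have h6 : ∀ᶠ q in 𝓝 p, A.R q (η q.1) := by
    filter_upwards [(continuous_fst.tendsto p).eventually c,
      h5.eventually_mem (S_op.mem_nhds (by rwa [b]))] with q d e using ⟨d.1, d.2, e⟩
  exact ⟨h6.mono fun q hq => ⟨_, hq⟩, h4.congr (h6.mono fun q hq => (rt_eq hq).symm)⟩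

theorem op : IsOpen A.Ω := isOpen_iff_mem_nhds.2 fun _ hp => (loc hp).1

theorem Θ_an (hp : p ∈ A.Ω) : AnalyticAt ℂ A.Θ p := by
  have a1 : AnalyticAt ℂ (fun q : X × Q => q.2.1) p := analyticAt_fst.comp analyticAt_snd
  have a2 := (loc hp).2.smul (f := A.rt) (g := fun q : X × Q => q.2.2)
    (analyticAt_snd.comp analyticAt_snd)
  exact (a1.add a2).prod (a1.sub a2)

theorem H_ne (hp : p ∈ A.Ω) : A.H p.1 ≠ 0 := (spec hp).1 ▸ pow_ne_zero 2 (spec hp).2.1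

theorem gd (hp : p ∈ A.Ω) : Gd A.Φ p :=
  (((Gd.comp (v := A.φ) (ψ := fun q => (A.Θ q).1) (A.o.gd _ (spec hp).2.2.1).1
    (analyticAt_fst.comp (Θ_an hp))).add (Gd.comp (v := A.φ') (ψ := fun q => (A.Θ q).2)
    (A.o'.gd _ (spec hp).2.2.2).1 (analyticAt_snd.comp (Θ_an hp)))).add
    ((gd_norm _).comp analyticAt_fst)).add ((gd_norm _).comp (ψ := fun q : X × Q => (A.H q.1)⁻¹)
    (((A.w.an _).comp analyticAt_fst).inv (H_ne hp)))

theorem cpt (c : ℝ) : IsCompact {p | p ∈ A.Ω ∧ A.Φ p ≤ c} := by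
  have hH := A.w.cont
  obtain ⟨M, hM⟩ := (isCompact_closedBall (0 : X) c).exists_bound_of_continuousOn hH.continuousOn
  have h1 : IsCompact {a : X × ℂ | ‖a.1‖ ≤ c ∧ a.2 ^ 2 = A.H a.1 ∧ 1 ≤ c * ‖A.H a.1‖} := by
    refine ((isCompact_closedBall (0 : X) c).prod (isCompact_closedBall (0 : ℂ) (M + 1))
      ).of_isClosed_subset (.and (isClosed_le (by fun_prop) (by fun_prop)) (.and (isClosed_eq
      (by fun_prop) (by fun_prop)) (isClosed_le (by fun_prop) (by fun_prop)))) fun a ha => ?_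
    have h2 := hM a.1 (mem_closedBall_zero_iff.2 ha.1)
    rw [← ha.2.1, norm_pow] at h2
    exact ⟨mem_closedBall_zero_iff.2 ha.1, mem_closedBall_zero_iff.2
      (by nlinarith [norm_nonneg a.2])⟩
  have h0 : ∀ a : X × ℂ, a.2 ^ 2 = A.H a.1 → 1 ≤ c * ‖A.H a.1‖ → a.2 ≠ 0 := fun a h h' h2 => by
    rw [← h, h2] at h'
    norm_num at h'
  have h2 := (h1.prod ((A.o.cpt c).prod (A.o'.cpt c))).image_of_continuousOn
    (f := fun a => ((a.1.1, ti a.1.2 a.2) : X × Q)) fun a ha => by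
      have := mul_ne_zero two_ne_zero (h0 _ ha.1.2.1 ha.1.2.2)
      refine ContinuousAt.continuousWithinAt ?_
      unfold ti
      fun_prop (disch := assumption)
  generalize hK : _ '' _ = K at h2
  have h3 : ∀ p ∈ K, p ∈ A.Ω := by
    rw [← hK]
    rintro _ ⟨a, ha, rfl⟩
    exact ⟨_, R_ti ha.1.2.1 (h0 _ ha.1.2.1 ha.1.2.2) ⟨ha.2.1.1, ha.2.2.1⟩⟩
  convert h2.of_isClosed_subset (ContinuousOn.preimage_isClosed_of_isClosed (f := A.Φ)
    (fun p hp => (gd (h3 p hp)).1.continuousWithinAt) h2.isClosed (isClosed_Iic (a := c)))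
    inter_subset_left using 1
  refine Set.ext fun p => ⟨fun ⟨hp, h⟩ => ⟨?_, h⟩, fun hp => ⟨h3 p hp.1, hp.2⟩⟩
  obtain ⟨a, b, d⟩ := spec hp
  have e1 := (A.o.gd _ d.1).2
  have e2 := (A.o'.gd _ d.2).2
  have e3 := norm_nonneg p.1
  have e4 := norm_nonneg (A.H p.1)⁻¹
  rw [Φ, Θ] at h
  rw [← hK]
  refine ⟨((p.1, A.rt p), A.Θ p), ⟨⟨by linarith, a, ?_⟩, ⟨d.1, by rw [Θ]; linarith⟩, d.2,
    by rw [Θ]; linarith⟩, by simp only [Θ, ti_tw b]⟩
  rw [← inv_le_iff_one_le_mul₀ (norm_pos_iff.2 (H_ne hp)), ← norm_inv]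
  linarith

end Dat

end Pool.Agent.P.MP_97162c_an.K
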