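import Pool.Agent.P.MP_97162c_an.K.Berg
import Pool.Agent.P.MP_97162c_an.Subharm

/-! Transfer to coordinates. -/

namespace Pool.Agent.P.MP_97162c_an.K

open MeasureTheory Set Filter Topology Metric
open scoped ENNReal

theorem main (n k : ℕ) (hn : 5 ≤ n) (hk : 1 ≤ k) :
    ∃ Ω : Set (Fin n → ℂ), IsOpen Ω ∧ IsConnected Ω ∧
      (∃ φ : (Fin n → ℂ) → ℝ, ContinuousOn φ Ω ∧
        (∀ c : ℝ, IsCompact {z | z ∈ Ω ∧ φ z ≤ c}) ∧
        ∀ a b : Fin n → ℂ, (∀ ζ : ℂ, ‖ζ‖ ≤ 1 → a + ζ • b ∈ Ω) →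
          φ a ≤ (1 / (2 * Real.pi)) *
            ∫ θ in (0:ℝ)..(2 * Real.pi), φ (a + Complex.exp ((θ : ℂ) * Complex.I) • b)) ∧
      ∃ g : Fin k → (Fin n → ℂ) → ℂ,
        (∀ i, DifferentiableOn ℂ (g i) Ω ∧ MemLp (g i) 2 (volume.restrict Ω)) ∧
        (∀ c : Fin k → ℂ, (∀ z ∈ Ω, ∑ i, c i * g i z = 0) → c = 0) ∧
        ∀ f : (Fin n → ℂ) → ℂ, DifferentiableOn ℂ f Ω → MemLp f 2 (volume.restrict Ω) →
          ∃ c : Fin k → ℂ, ∀ z ∈ Ω, f z = ∑ i, c i * g i z := by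
  obtain ⟨X, _, _, _, _, _, _, _, H, β, h1, w⟩ := exists_wt hk (n - 5)
  obtain ⟨U, φ, U', φ', o, o', dj⟩ := exists_two
  let A : Dat X k := ⟨H, β, U, U', φ, φ', w, o, o', dj⟩
  let e : (Fin n → ℂ) ≃L[ℂ] X × Q := .ofFinrankEq (by
    simp only [Module.finrank_prod, h1, Module.finrank_self, Module.finrank_fin_fun]; omega)
  have : (volume : Measure (X × Q)).IsAddHaarMeasure := Measure.prod.instIsAddHaarMeasure _ _
  have ho : IsOpen (e ⁻¹' A.Ω) := Dat.op.preimage e.continuous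
  have hL : ∀ F : X × Q → ℂ, DifferentiableOn ℂ F A.Ω →
      DifferentiableOn ℂ (fun z => F (e z)) (e ⁻¹' A.Ω) ∧
      (MemLp (fun z => F (e z)) 2 (volume.restrict (e ⁻¹' A.Ω)) ↔
        ∫⁻ p in A.Ω, ‖F p ^ 2‖ₑ ≠ ∞) := fun F hF => by
    have hd : DifferentiableOn ℂ (fun z => F (e z)) (e ⁻¹' A.Ω) :=
      hF.comp e.differentiable.differentiableOn (mapsTo_preimage _ _)
    have he : MeasurableEmbedding e := e.toHomeomorph.measurableEmbedding
    have h2 := (he.lintegral_map (μ := volume.restrict (e ⁻¹' A.Ω)) fun p => ‖F p ^ 2‖ₑ).symm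
    rw [← he.restrict_map, Measure.isAddLeftInvariant_eq_smul (Measure.map e volume) volume,
      Measure.restrict_smul, lintegral_smul_measure] at h2
    refine ⟨hd, ?_⟩
    rw [MemLp, eLpNorm_lt_top_iff_lintegral_rpow_enorm_lt_top (by norm_num) (by norm_num),
      and_iff_right (hd.continuousOn.aestronglyMeasurable ho.measurableSet)]
    simp only [ENNReal.toReal_ofNat, ENNReal.rpow_ofNat, ← enorm_pow, h2, ENNReal.smul_def,
      smul_eq_mul, lt_top_iff_ne_top]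
    exact ⟨fun h => (ENNReal.lt_top_of_mul_ne_top_right h (ENNReal.coe_ne_zero.2
      (Measure.addHaarScalarFactor_pos_of_isAddHaarMeasure _ _).ne')).ne,
      ENNReal.mul_ne_top ENNReal.coe_ne_top⟩
  have hcont : ContinuousOn (fun z => A.Φ (e z)) (e ⁻¹' A.Ω) := fun z hz =>
    ((Dat.gd hz).1.comp e.continuous.continuousAt).continuousWithinAt
  refine ⟨e ⁻¹' A.Ω, ho, e.toHomeomorph.isConnected_preimage.mpr Dat.conn,
    ⟨fun z => A.Φ (e z), hcont, fun c => e.toHomeomorph.isCompact_preimage.mpr (Dat.cpt c),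
    fun a b hab => ?_⟩, fun j z => A.g j (e z),
    fun j => ⟨(hL _ (Dat.g_diff j)).1, (hL _ (Dat.g_diff j)).2.2 (Dat.g_fin j)⟩,
    fun c hc => Dat.g_ind c fun p hp => by simpa using hc (e.symm p) (by simpa using hp),
    fun f hf hfL => ?_⟩
  · have hl : Differentiable ℂ fun ζ : ℂ => e (a + ζ • b) :=
      e.differentiable.comp (f := fun ζ : ℂ => a + ζ • b) (by fun_prop)
    have h := submean (u := fun ζ => A.Φ (e (a + ζ • b)))
      (hcont.comp (f := fun ζ : ℂ => a + ζ • b) (by fun_prop)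
        fun ζ hζ => hab ζ (mem_closedBall_zero_iff.mp hζ)) (by
        intro z hz
        obtain ⟨-, g, h1, h2, h3⟩ := Dat.gd (hab z (mem_ball_zero_iff.mp hz).le)
        refine ⟨fun ζ => g (e (a + ζ • b)), ?_, h3⟩
        filter_upwards [(hl.continuous.tendsto z).eventually
          (h1.eventually_analyticAt.and h2)] with w hw
        exact ⟨hw.1.differentiableAt.comp w (hl w), hw.2⟩)
    simpa only [zero_smul, add_zero] using h
  · have hF : DifferentiableOn ℂ (fun p => f (e.symm p)) A.Ω :=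
      hf.comp e.symm.differentiable.differentiableOn fun p hp => by simpa using hp
    obtain ⟨c, hc⟩ := Dat.span hF ((hL _ hF).2.1 (by simpa using hfL))
    exact ⟨c, fun z hz => by simpa using hc (e z) hz⟩

end Pool.Agent.P.MP_97162c_an.K
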